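import Pool.Agent.H546.L1.Lift
import Pool.Agent.H546.UtilH

set_option autoImplicit false

/-!
# The sums of level one at points with complex multiplication by a ring of class number one
-/

namespace Pool.Agent.H546.L1

open Finset
open Pool.Agent.Q267.CDE (R)

section tw

open Polynomial

variable {O K k : Type*} [CommRing O] [IsDomain O] [Field K] [Algebra O K] [Field k]
  (S : DV O K k)

/-- composition with the isomorphism to the quadratic twist by `-1` -/
theorem Dat.tw {f : O[X]} {a b b' m i : O} {l : ℕ} (h : Dat S f a b m l) (hb : b' = -b) (hi : i ^ 2 = -1) :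
    Dat S f a b' (i * m) l := by
  subst hb
  obtain ⟨n, d, ode, hd, hdeg, hnl, copK, copk, hl⟩ := h
  have hiC : (C i : O[X]) ^ 2 = -1 := by rw [← C_pow, hi, C_neg, C_1]
  refine ⟨-n, d, ?_, hd, ?_, ?_, ?_, ?_, ?_⟩
  · have e1 : wr (-n) d = -wr n d := by simp only [wr, derivative_neg]; ring
    have e2 : tgt a (-b) (-n) d = -tgt a b n d := by simp only [tgt, C_neg]; ring
    rw [e1, e2, C_mul]
    linear_combination ode + (C m ^ 2 * tgt a b n d) * hiC
  · rw [natDegree_neg]; exact hdeg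
  · rw [natDegree_neg]; exact hnl
  · rw [Polynomial.map_neg]; exact copK.neg_left
  · rw [Polynomial.map_neg]; exact copk.neg_left
  · rw [Polynomial.map_neg, natDegree_neg, natDegree_neg]; exact hl

end tw

variable {O K k : Type*} [CommRing O] [IsDomain O] [Field K] [Algebra O K] [Field k]
  (S : DV O K k) {p : ℕ} [hp : Fact p.Prime] [CharP k p]

theorem sqx_par {x y : ℤ} {P L : ℤ} (h : 4 * P = x ^ 2 + (4 * L - 1) * y ^ 2) : (x - y) % 2 = 0 := by
  have h2 : (x ^ 2 - y ^ 2) % 2 = 0 := by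
    have : x ^ 2 - y ^ 2 = 2 * (2 * P - 2 * L * y ^ 2) := by linear_combination -h
    omega
  rcases Int.even_or_odd' x with ⟨a, ha | ha⟩ <;> rcases Int.even_or_odd' y with ⟨b, hb | hb⟩
  · omega
  · exfalso
    rw [ha, hb] at h2
    ring_nf at h2
    omega
  · exfalso
    rw [ha, hb] at h2
    ring_nf at h2
    omega
  · omega

/-- the ordinary case -/
theorem cm_ord [IsAlgClosed k] (hp5 : 5 ≤ p) (hq : S.q = (p : O)) {z τ s i : O} {M N c0 δ : ℤ}
    (hM : ¬ (p : ℤ) ∣ M) (hMz : (M : O) * (z * (1 - z)) = 432) (hN : ¬ (p : ℤ) ∣ N)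
    (hzs : (N : O) * (1 - 2 * z) = c0 * s) (hs : s ^ 2 = (δ : O)) (hδ : ¬ (p : ℤ) ∣ δ) (hc0 : ¬ (p : ℤ) ∣ c0)
    {l : ℕ} (hτ : τ ^ 2 = τ - l) (d : Dat S (cub (-3) (4 * z - 2)) (-3) (4 * z - 2) τ l)
    (hl : ¬ (p : ℤ) ∣ l) (hl0 : 1 ≤ l) (hbig : 16 * l < p ^ 2) (hi : i ^ 2 = -1) (x y : ℤ)
    (hxy : 4 * (p : ℤ) = x ^ 2 + (4 * l - 1) * y ^ 2) {wi : R p} (hwi : (M : R p) * wi = 1) :
    ∑ k ∈ range p, (k.centralBinom : R p) * ((u6 k : ℕ) : R p) * wi ^ k =
      ((legendreSym p δ * (x ^ 2 - 2 * p) : ℤ) : R p) := by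
  obtain ⟨hz, hz1⟩ := z_units6 S hp5 hMz
  have r2 := S.two_ne (p := p) (by omega)
  have h2O : (2 : O) ≠ 0 := by intro h0; rw [h0, map_zero] at r2; exact r2 rfl
  have hsr : S.red s ≠ 0 := S.ne_mul (y := s) (n := δ) (by rw [← hs]; ring) hδ
  have hb0 : S.red (4 * z - 2) ≠ 0 := by
    intro h0
    have h1 : (N : O) * (4 * z - 2) = -(2 * (c0 * s)) := by linear_combination -2 * hzs
    have h2 := congrArg S.red h1
    rw [map_mul, h0, mul_zero, map_neg, map_mul, map_mul] at h2
    have h3 : S.red 2 * (S.red (c0 : O) * S.red s) = 0 := by linear_combination h2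
    exact mul_ne_zero r2 (mul_ne_zero (S.int_ne hc0) hsr) h3
  have hτ0 : τ ≠ 0 := by
    intro h0
    rw [h0] at hτ
    have h1 : (l : O) = 0 := by linear_combination hτ
    have h2 : S.red ((l : ℤ) : O) = 0 := by push_cast; rw [h1, map_zero]
    exact S.int_ne hl h2
  have hi0 : i ≠ 0 := by
    intro h0
    rw [h0] at hi
    have h1 : (1 : O) = 0 := by linear_combination hi
    exact one_ne_zero h1
  have hcop1 : ¬ (p : ℤ) ∣ ((1 : ℕ) : ℤ) := by
    intro h1
    have := Int.le_of_dvd (by norm_num) h1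
    push_cast at this
    omega
  have hO : 4 * (p : O) = (x : O) ^ 2 + (4 * l - 1) * (y : O) ^ 2 := by
    have := congrArg (Int.cast : ℤ → O) hxy
    push_cast at this; exact this
  -- the Frobenius on z
  have hfz : ((2 * N : ℤ) : k) * S.red z ^ p = (N : k) + ((-c0 : ℤ) : k) * ((legendreSym p δ : k) * S.red s) := by
    refine S.frobq (by omega) (n := 2 * N) (a := N) (b := -c0) (d := δ) ?_ hs
    push_cast
    linear_combination -hzs
  have hfz0 : ((2 * N : ℤ) : k) * S.red z = (N : k) + ((-c0 : ℤ) : k) * S.red s := by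
    have h1 : ((2 * N : ℤ) : O) * z = (N : O) + ((-c0 : ℤ) : O) * s := by push_cast; linear_combination -hzs
    have h2 := congrArg S.red h1
    simpa only [map_mul, map_add, map_intCast] using h2
  have h2N : ((2 * N : ℤ) : k) ≠ 0 := by
    have h1 := S.int_ne (p := p) hN
    rw [map_intCast] at h1
    rw [map_ofNat] at r2
    push_cast
    exact mul_ne_zero r2 h1
  have hχ : legendreSym p δ = 1 ∨ legendreSym p δ = -1 :=
    legendreSym.eq_one_or_neg_one p (by rwa [Ne, ZMod.intCast_zmod_eq_zero_iff_dvd])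
  -- the two signs of y
  have key : ∀ y : ℤ, 4 * (p : ℤ) = x ^ 2 + (4 * l - 1) * y ^ 2 → 4 * (p : O) = (x : O) ^ 2 + (4 * l - 1) * (y : O) ^ 2 →
      S.red (((x - y) / 2 : ℤ) + (y : O) * τ) = 0 →
      ∑ k ∈ range p, (k.centralBinom : R p) * ((u6 k : ℕ) : R p) * wi ^ k =
      ((legendreSym p δ * (x ^ 2 - 2 * p) : ℤ) : R p) := by
    intro y hxy hO hr
    have hpar := sqx_par hxy
    obtain ⟨a, ha⟩ : ∃ a : ℤ, (x - y) / 2 = a := ⟨_, rfl⟩
    have hxa : x = 2 * a + y := by omega
    rw [ha] at hr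
    have hxO : (x : O) = 2 * a + y := by
      have := congrArg (Int.cast : ℤ → O) hxa
      push_cast at this; exact this
    have hform : (p : ℤ) = a ^ 2 + a * y + y ^ 2 * l := by
      have : 4 * (p : ℤ) = 4 * (a ^ 2 + a * y + y ^ 2 * l) := by rw [hxy, hxa]; ring
      omega
    have hprod : ((a : O) + y * τ) * ((x : O) - ((a : O) + y * τ)) = p := by
      have h4 : (2 * 2 : O) ≠ 0 := mul_ne_zero h2O h2O
      apply mul_left_cancel₀ h4
      rw [hxO] at hO ⊢
      linear_combination (-4 * (y : O) ^ 2) * hτ - hO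
    rcases hχ with hc | hc
    · have hz' : S.red z = S.red z ^ p := by
        apply mul_left_cancel₀ h2N
        rw [hfz, hfz0, hc]; push_cast; ring
      have := sum_form6 S hp5 hq hM hMz hz hz1 hz' hb0 (m1 := 1) (m2 := τ) (l1 := 1) (l2 := l)
        one_ne_zero hτ0 (Dat.id S _ _) d a y 1 (by rw [hform]; push_cast; ring) hcop1 hl
        (by push_cast; have : (1 : ℤ) ≤ l := by exact_mod_cast hl0
            linarith)
        (by omega) (al := (a : O) + y * τ) (τ := x) (c := 1) (E := x ^ 2 - 2 * p) (by ring) hr (by norm_num)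
        (by rw [hprod]; push_cast; ring) (by push_cast; ring) hwi
      rw [this, hc, one_mul]
    · have hz' : S.red (1 - z) = S.red z ^ p := by
        apply mul_left_cancel₀ h2N
        rw [hfz, map_sub, map_one, mul_sub, hfz0, hc]; push_cast; ring
      have d1 := Dat.tw S (b' := 4 * (1 - z) - 2) (Dat.id S (-3) (4 * z - 2)) (by ring) hi
      have d2 := Dat.tw S (b' := 4 * (1 - z) - 2) d (by ring) hi
      have := sum_form6 S hp5 hq hM hMz hz hz1 hz' hb0 (m1 := i * 1) (m2 := i * τ) (l1 := 1) (l2 := l)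
        (mul_ne_zero hi0 one_ne_zero) (mul_ne_zero hi0 hτ0) d1 d2 a y 1 (by rw [hform]; push_cast; ring) hcop1 hl
        (by push_cast; have : (1 : ℤ) ≤ l := by exact_mod_cast hl0
            linarith)
        (by omega) (al := i * ((a : O) + y * τ)) (τ := i * x) (c := -1) (E := 2 * p - x ^ 2) (by ring)
        (by rw [map_mul, hr, mul_zero]) (by norm_num)
        (by push_cast; linear_combination i ^ 2 * hprod + (p : O) * hi)
        (by push_cast; linear_combination (-(x : O) ^ 2) * hi) hwi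
      rw [this, hc]
      congr 1
      ring
  have hpar := sqx_par hxy
  obtain ⟨a, ha⟩ : ∃ a : ℤ, (x - y) / 2 = a := ⟨_, rfl⟩
  have hxa : x = 2 * a + y := by omega
  have hxO : (x : O) = 2 * a + y := by
    have := congrArg (Int.cast : ℤ → O) hxa
    push_cast at this; exact this
  have ha' : (x - -y) / 2 = a + y := by omega
  have hprod : ((a : O) + y * τ) * ((x : O) - ((a : O) + y * τ)) = p := by
    have h4 : (2 * 2 : O) ≠ 0 := mul_ne_zero h2O h2O
    apply mul_left_cancel₀ h4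
    rw [hxO] at hO ⊢
    linear_combination (-4 * (y : O) ^ 2) * hτ - hO
  have h0 : S.red ((a : O) + y * τ) * S.red ((x : O) - ((a : O) + y * τ)) = 0 := by
    rw [← map_mul, hprod, ← hq, S.red_q]
  rcases mul_eq_zero.mp h0 with h | h
  · exact key y hxy hO (by rw [ha]; exact h)
  · refine key (-y) (by rw [hxy]; ring) (by rw [hO]; push_cast; ring) ?_
    rw [ha', ← h]
    congr 1
    rw [hxO]
    push_cast
    ring

/-- the supersingular case -/
theorem cm_ss (hp5 : 5 ≤ p) (hq : S.q = (p : O)) {z τ r : O} {M D : ℤ}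
    (hMz : (M : O) * (z * (1 - z)) = 432) (hr : r ^ 2 = (D : O)) (h2τ : 2 * τ = 1 + r)
    (hD : legendreSym p D = -1) {l : ℕ} (hτ : τ ^ 2 = τ - l)
    (d : Dat S (cub (-3) (4 * z - 2)) (-3) (4 * z - 2) τ l)
    (hl : ¬ (p : ℤ) ∣ l) {wi : R p} (hwi : (M : R p) * wi = 1) :
    ∑ k ∈ range p, (k.centralBinom : R p) * ((u6 k : ℕ) : R p) * wi ^ k = 0 := by
  have r2 := S.two_ne (p := p) (by omega)
  have r2k : (2 : k) ≠ 0 := by rwa [map_ofNat] at r2
  have hDd : ¬ (p : ℤ) ∣ D := by
    intro h0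
    rw [(legendreSym.eq_zero_iff p D).mpr ((ZMod.intCast_zmod_eq_zero_iff_dvd D p).mpr h0)] at hD
    norm_num at hD
  have hrr : S.red r ≠ 0 := S.ne_mul (y := r) (n := D) (by rw [← hr]; ring) hDd
  have hm : S.red τ ≠ 0 := by
    refine S.ne_mul (y := 1 - τ) (n := l) ?_ hl
    push_cast
    linear_combination -hτ
  refine qss6 S hp5 hq hMz hm ?_ d hwi
  intro h0
  have h1 : ((2 : ℤ) : k) * S.red τ ^ p = ((1 : ℤ) : k) + ((1 : ℤ) : k) * ((legendreSym p D : k) * S.red r) :=
    S.frobq (by omega) (n := 2) (a := 1) (b := 1) (d := D) (by push_cast; linear_combination h2τ) hr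
  have h2 : 2 * S.red τ = 1 + S.red r := by
    have := congrArg S.red h2τ
    rwa [map_mul, map_ofNat, map_add, map_one] at this
  rw [hD, h0] at h1
  push_cast at h1
  have h3 : 2 * S.red r = 0 := by linear_combination h1 - h2
  exact mul_ne_zero r2k hrr h3

end Pool.Agent.H546.L1
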