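import Pool.Agent.H546.L1.CM
import Pool.Agent.H888.L1I.I27

set_option autoImplicit false

/-!
# The endomorphism of degree 7 for the discriminant `-27`
-/

namespace Pool.Agent.H546.L1

theorem dat27 {p : ℕ} [Fact p.Prime] (h2 : p ≠ 2) (h3 : p ≠ 3) (h5 : p ≠ 5) (h7 : p ≠ 7) {s r z τ : WO p}
    (hs : s ^ 2 = 10) (hr : r ^ 2 = -3) (hz : 1600 * z = 800 - 253 * s) (hτ : 2 * τ = 1 + 3 * r) :
    Dat (SW p) (cub (-3) (4 * z - 2)) (-3) (4 * z - 2) τ 7 :=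
  Pool.Agent.H888.L1I.I27.psi (SW p) h2 h3 h5 h7 hs hr (by linear_combination -hz) hτ

end Pool.Agent.H546.L1
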