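import Pool.Agent.H546.L1.Iso

set_option autoImplicit false
set_option maxRecDepth 100000
set_option maxHeartbeats 4000000

/-!
# An explicit endomorphism of degree 5 (discriminant `-19`)
-/

namespace Pool.Agent.H546.L1.I19

def Fl : List Q4 := [⟨.negSucc 721, .ofNat 0, .ofNat 0, .ofNat 0⟩, ⟨.negSucc 151, .ofNat 0, .ofNat 0, .ofNat 0⟩, ⟨.ofNat 0, .ofNat 0, .ofNat 0, .ofNat 0⟩, ⟨.ofNat 1, .ofNat 0, .ofNat 0, .ofNat 0⟩]

def n : List Q4 := [⟨.ofNat 2743600, .ofNat 0, .negSucc 1588399, .ofNat 0⟩, ⟨.ofNat 1516200, .ofNat 0, .negSucc 649799, .ofNat 0⟩, ⟨.ofNat 288800, .ofNat 0, .negSucc 91199, .ofNat 0⟩, ⟨.ofNat 23750, .ofNat 0, .negSucc 4749, .ofNat 0⟩, ⟨.ofNat 950, .ofNat 0, .negSucc 49, .ofNat 0⟩, ⟨.ofNat 25, .ofNat 0, .ofNat 0, .ofNat 0⟩]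

def n1 : List Q4 := [⟨.ofNat 1516200, .ofNat 0, .negSucc 649799, .ofNat 0⟩, ⟨.ofNat 577600, .ofNat 0, .negSucc 182399, .ofNat 0⟩, ⟨.ofNat 71250, .ofNat 0, .negSucc 14249, .ofNat 0⟩, ⟨.ofNat 3800, .ofNat 0, .negSucc 199, .ofNat 0⟩, ⟨.ofNat 125, .ofNat 0, .ofNat 0, .ofNat 0⟩]

def h : List Q4 := [⟨.ofNat 418, .ofNat 0, .negSucc 37, .ofNat 0⟩, ⟨.ofNat 95, .ofNat 0, .negSucc 4, .ofNat 0⟩, ⟨.ofNat 5, .ofNat 0, .ofNat 0, .ofNat 0⟩]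

def h1 : List Q4 := [⟨.ofNat 95, .ofNat 0, .negSucc 4, .ofNat 0⟩, ⟨.ofNat 10, .ofNat 0, .ofNat 0, .ofNat 0⟩]

def a1 : List Q4 := [⟨.ofNat 164616000, .ofNat 0, .negSucc 329231999, .ofNat 0⟩, ⟨.ofNat 192052000, .ofNat 0, .negSucc 167503999, .ofNat 0⟩, ⟨.ofNat 64619000, .ofNat 0, .negSucc 32128999, .ofNat 0⟩, ⟨.ofNat 9747000, .ofNat 0, .negSucc 2849999, .ofNat 0⟩, ⟨.ofNat 750500, .ofNat 0, .negSucc 113999, .ofNat 0⟩, ⟨.ofNat 30875, .ofNat 0, .negSucc 1624, .ofNat 0⟩, ⟨.ofNat 625, .ofNat 0, .ofNat 0, .ofNat 0⟩]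

def a2 : List Q4 := [⟨.ofNat 109744000, .ofNat 0, .negSucc 164615999, .ofNat 0⟩, ⟨.ofNat 109744000, .ofNat 0, .negSucc 85195999, .ofNat 0⟩, ⟨.ofNat 33934000, .ofNat 0, .negSucc 16605999, .ofNat 0⟩, ⟨.ofNat 4693000, .ofNat 0, .negSucc 1481999, .ofNat 0⟩, ⟨.ofNat 323000, .ofNat 0, .negSucc 56999, .ofNat 0⟩, ⟨.ofNat 11875, .ofNat 0, .negSucc 624, .ofNat 0⟩, ⟨.ofNat 250, .ofNat 0, .ofNat 0, .ofNat 0⟩]

def W : List Q4 := [⟨.negSucc 54871999, .ofNat 0, .ofNat 0, .ofNat 0⟩, ⟨.negSucc 27435999, .ofNat 0, .ofNat 2888000, .ofNat 0⟩, ⟨.negSucc 3248999, .ofNat 0, .ofNat 1083000, .ofNat 0⟩, ⟨.ofNat 361000, .ofNat 0, .ofNat 114000, .ofNat 0⟩, ⟨.ofNat 104500, .ofNat 0, .ofNat 0, .ofNat 0⟩, ⟨.ofNat 7125, .ofNat 0, .negSucc 374, .ofNat 0⟩, ⟨.ofNat 125, .ofNat 0, .ofNat 0, .ofNat 0⟩]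

def W2 : List Q4 := [⟨.ofNat 3010936384000000, .ofNat 0, .ofNat 0, .ofNat 0⟩, ⟨.ofNat 3010936384000000, .ofNat 0, .negSucc 316940671999999, .ofNat 0⟩, ⟨.ofNat 950822016000000, .ofNat 0, .negSucc 277323087999999, .ofNat 0⟩, ⟨.ofNat 19808792000000, .ofNat 0, .negSucc 90703415999999, .ofNat 0⟩, ⟨.negSucc 55516745999999, .ofNat 0, .negSucc 11207605999999, .ofNat 0⟩, ⟨.negSucc 13553383999999, .ofNat 0, .ofNat 685900000000, .ofNat 0⟩, ⟨.negSucc 1159170999999, .ofNat 0, .ofNat 370386000000, .ofNat 0⟩, ⟨.ofNat 37724500000, .ofNat 0, .ofNat 42417500000, .ofNat 0⟩, ⟨.ofNat 16876750000, .ofNat 0, .ofNat 1624500000, .ofNat 0⟩, ⟨.ofNat 1579375000, .ofNat 0, .negSucc 49874999, .ofNat 0⟩, ⟨.ofNat 74218750, .ofNat 0, .negSucc 5343749, .ofNat 0⟩, ⟨.ofNat 1781250, .ofNat 0, .negSucc 93749, .ofNat 0⟩, ⟨.ofNat 15625, .ofNat 0, .ofNat 0, .ofNat 0⟩]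

def T1 : List Q4 := [⟨.negSucc 2173896069247999999, .ofNat 0, .ofNat 0, .ofNat 0⟩, ⟨.negSucc 2631558399615999999, .ofNat 0, .ofNat 228831165184000000, .ofNat 0⟩, ⟨.negSucc 1144155825919999999, .ofNat 0, .ofNat 248402251680000000, .ofNat 0⟩, ⟨.negSucc 155815957871999999, .ofNat 0, .ofNat 107640975728000000, .ofNat 0⟩, ⟨.ofNat 40083090612000000, .ofNat 0, .ofNat 21561870092000000, .ofNat 0⟩, ⟨.ofNat 19174910656000000, .ofNat 0, .ofNat 931013224000000, .ofNat 0⟩, ⟨.ofNat 2916844622000000, .ofNat 0, .negSucc 462378907999999, .ofNat 0⟩, ⟨.ofNat 93440157000000, .ofNat 0, .negSucc 98131712999999, .ofNat 0⟩, ⟨.negSucc 31472521499999, .ofNat 0, .negSucc 6934448999999, .ofNat 0⟩, ⟨.negSucc 4864745749999, .ofNat 0, .ofNat 159471750000, .ofNat 0⟩, ⟨.negSucc 255926437499, .ofNat 0, .ofNat 53856687500, .ofNat 0⟩, ⟨.ofNat 4309437500, .ofNat 0, .ofNat 2504437500,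 .ofNat 0⟩, ⟨.ofNat 1297343750, .ofNat 0, .negSucc 35624999, .ofNat 0⟩, ⟨.ofNat 71843750, .ofNat 0, .negSucc 5343749, .ofNat 0⟩, ⟨.ofNat 1781250, .ofNat 0, .negSucc 93749, .ofNat 0⟩, ⟨.ofNat 15625, .ofNat 0, .ofNat 0, .ofNat 0⟩]

def n2 : List Q4 := [⟨.negSucc 40409935679999, .ofNat 0, .negSucc 8715868479999, .ofNat 0⟩, ⟨.negSucc 30901715519999, .ofNat 0, .negSucc 8382246719999, .ofNat 0⟩, ⟨.negSucc 9643753999999, .ofNat 0, .negSucc 3388345999999, .ofNat 0⟩, ⟨.negSucc 1532574959999, .ofNat 0, .negSucc 753392559999, .ofNat 0⟩, ⟨.negSucc 117700439999, .ofNat 0, .negSucc 101238839999, .ofNat 0⟩, ⟨.negSucc 960259999, .ofNat 0, .negSucc 8541259999, .ofNat 0⟩, ⟨.ofNat 586625000, .ofNat 0, .negSucc 460274999, .ofNat 0⟩, ⟨.ofNat 50540000, .ofNat 0, .negSucc 15959999, .ofNat 0⟩, ⟨.ofNat 2042500, .ofNat 0, .negSucc 332499, .ofNat 0⟩, ⟨.ofNat 47500, .ofNat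 0, .negSucc 2499, .ofNat 0⟩, ⟨.ofNat 625, .ofNat 0, .ofNat 0, .ofNat 0⟩]

def n3 : List Q4 := [⟨.negSucc 373910123910655999999, .ofNat 0, .ofNat 40274285072384000000, .ofNat 0⟩, ⟨.negSucc 506632199717375999999, .ofNat 0, .ofNat 39130129246464000000, .ofNat 0⟩, ⟨.negSucc 305832852268415999999, .ofNat 0, .ofNat 14560888353024000000, .ofNat 0⟩, ⟨.negSucc 108592431625343999999, .ofNat 0, .ofNat 1878824303616000000, .ofNat 0⟩, ⟨.negSucc 25197021129503999999, .ofNat 0, .negSucc 394828842143999999, .ofNat 0⟩, ⟨.negSucc 4010032426103999999, .ofNat 0, .negSucc 218035373543999999, .ofNat 0⟩, ⟨.negSucc 446153422215999999, .ofNat 0, .negSucc 46584023375999999, .ofNat 0⟩, ⟨.negSucc 34558783421999999, .ofNat 0, .negSucc 6151411841999999, .ofNat 0⟩, ⟨.negSucc 1792956317999999, .ofNat 0, .negSucc 555043997999999, .ofNat 0⟩, ⟨.negSucc 53589366999999, .ofNat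 0, .negSucc 35447311999999, .ofNat 0⟩, ⟨.negSucc 87452249999, .ofNat 0, .negSucc 1617189749999, .ofNat 0⟩, ⟨.ofNat 76351500000, .ofNat 0, .negSucc 52254749999, .ofNat 0⟩, ⟨.ofNat 3971000000, .ofNat 0, .negSucc 1158999999, .ofNat 0⟩, ⟨.ofNat 108656250, .ofNat 0, .negSucc 16031249, .ofNat 0⟩, ⟨.ofNat 1781250, .ofNat 0, .negSucc 93749, .ofNat 0⟩, ⟨.ofNat 15625, .ofNat 0, .ofNat 0, .ofNat 0⟩]

def h2 : List Q4 := [⟨.ofNat 147288, .ofNat 0, .negSucc 31767, .ofNat 0⟩, ⟨.ofNat 72200, .ofNat 0, .negSucc 11399, .ofNat 0⟩, ⟨.ofNat 12730, .ofNat 0, .negSucc 1329, .ofNat 0⟩, ⟨.ofNat 950, .ofNat 0, .negSucc 49, .ofNat 0⟩, ⟨.ofNat 25, .ofNat 0, .ofNat 0, .ofNat 0⟩]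

def h4 : List Q4 := [⟨.ofNat 2518844288, .ofNat 0, .negSucc 9358090367, .ofNat 0⟩, ⟨.ofNat 7506489600, .ofNat 0, .negSucc 7945465599, .ofNat 0⟩, ⟨.ofNat 4887997760, .ofNat 0, .negSucc 2846759359, .ofNat 0⟩, ⟨.ofNat 1481544000, .ofNat 0, .negSucc 557383999, .ofNat 0⟩, ⟨.ofNat 251328200, .ofNat 0, .negSucc 64330199, .ofNat 0⟩, ⟨.ofNat 25270000, .ofNat 0, .negSucc 4369999, .ofNat 0⟩, ⟨.ofNat 1491500, .ofNat 0, .negSucc 161499, .ofNat 0⟩, ⟨.ofNat 47500, .ofNat 0, .negSucc 2499, .ofNat 0⟩, ⟨.ofNat 625, .ofNat 0, .ofNat 0, .ofNat 0⟩]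

def h6 : List Q4 := [⟨.negSucc 5277472943910911, .ofNat 0, .negSucc 1458353059463167, .ofNat 0⟩, ⟨.negSucc 5535305448345599, .ofNat 0, .negSucc 2113106848358399, .ofNat 0⟩, ⟨.negSucc 2381771117199359, .ofNat 0, .negSucc 1356290556503039, .ofNat 0⟩, ⟨.negSucc 493635096639999, .ofNat 0, .negSucc 510566400959999, .ofNat 0⟩, ⟨.negSucc 25640917391999, .ofNat 0, .negSucc 125489739887999, .ofNat 0⟩, ⟨.ofNat 12198045600000, .ofNat 0, .negSucc 21169617599999, .ofNat 0⟩, ⟨.ofNat 3574087720000, .ofNat 0, .negSucc 2502711919999, .ofNat 0⟩, ⟨.ofNat 504136500000, .ofNat 0, .negSucc 207394499999, .ofNat 0⟩, ⟨.ofNat 44023950000, .ofNat 0, .negSucc 11804699999, .ofNat 0⟩, ⟨.ofNat 2481875000, .ofNat 0, .negSucc 439374999, .ofNat 0⟩, ⟨.ofNat 87993750, .ofNat 0, .negSucc 9618749, .ofNat 0⟩, ⟨.ofNat 1781250, .ofNat 0, .negSucc 93749, .ofNat 0⟩, ⟨.ofNat 15625,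 .ofNat 0, .ofNat 0, .ofNat 0⟩]

def nh : List Q4 := [⟨.negSucc 275512722881535999, .ofNat 0, .negSucc 29675789000703999, .ofNat 0⟩, ⟨.negSucc 330913952347135999, .ofNat 0, .negSucc 49547969135103999, .ofNat 0⟩, ⟨.negSucc 174706572745215999, .ofNat 0, .negSucc 35431431604223999, .ofNat 0⟩, ⟨.negSucc 52877113953791999, .ofNat 0, .negSucc 14588462191487999, .ofNat 0⟩, ⟨.negSucc 9953680274495999, .ofNat 0, .negSucc 3884825222143999, .ofNat 0⟩, ⟨.negSucc 1154873007932799, .ofNat 0, .negSucc 708054218819199, .ofNat 0⟩, ⟨.negSucc 68298629679999, .ofNat 0, .negSucc 90780785519999, .ofNat 0⟩, ⟨.ofNat 1211409144000, .ofNat 0, .negSucc 8259443183999, .ofNat 0⟩, ⟨.ofNat 614223450000, .ofNat 0, .negSucc 529749449999, .ofNat 0⟩, ⟨.ofNat 57319580000, .ofNat 0, .negSucc 23403629999, .ofNat 0⟩, ⟨.ofNat 2978250000, .ofNat 0, .negSucc 679249999, .ofNat 0⟩, ⟨.ofNat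 94881250, .ofNat 0, .negSucc 11756249, .ofNat 0⟩, ⟨.ofNat 1781250, .ofNat 0, .negSucc 93749, .ofNat 0⟩, ⟨.ofNat 15625, .ofNat 0, .ofNat 0, .ofNat 0⟩]

def A : List Q4 := [⟨.ofNat 1463, .ofNat 0, .ofNat 543, .ofNat 0⟩, ⟨.ofNat 50, .ofNat 0, .ofNat 50, .ofNat 0⟩]

def B : List Q4 := [⟨.negSucc 45139439, .ofNat 0, .negSucc 2108239, .ofNat 0⟩, ⟨.negSucc 12728859, .ofNat 0, .negSucc 1051459, .ofNat 0⟩, ⟨.negSucc 1007569, .ofNat 0, .negSucc 139269, .ofNat 0⟩, ⟨.negSucc 16814, .ofNat 0, .negSucc 7214, .ofNat 0⟩, ⟨.negSucc 249, .ofNat 0, .negSucc 249, .ofNat 0⟩]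

def AM : Q4 := ⟨.negSucc 2355, .ofNat 0, .ofNat 684, .ofNat 0⟩

def BM : Q4 := ⟨.ofNat 19494, .ofNat 0, .negSucc 20215, .ofNat 0⟩

theorem ok : L1.Ok 1 (-19) AM BM (1) (10974400) Fl n n1 h h1 a1 a2 W W2 T1 n2 n3 h2 h4 h6 nh A B where
  k1 := by decide +kernel
  k2 := by decide +kernel
  k3 := by decide +kernel
  k4 := by decide +kernel
  k5 := by decide +kernel
  k6 := by decide +kernel
  k7 := by decide +kernel
  k8 := by decide +kernel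
  k9 := by decide +kernel
  k10 := by decide +kernel
  k11 := by decide +kernel
  k12 := by decide +kernel
  k13 := by decide +kernel
  k14 := by decide +kernel
  k15 := by decide +kernel

end Pool.Agent.H546.L1.I19
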