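import Pool.Agent.H546.IsoT

set_option autoImplicit false

/-!
# Endomorphisms from verified lists, and the change of scale
-/

namespace Pool.Agent.H546.L1

open Polynomial

/-- the list data of an isogeny: all the checks -/
structure Ok (D E : Int) (AM BM : Q4) (KF R : Int)
    (Fl n n1 h h1 a1 a2 W W2 T1 n2 n3 h2 h4 h6 nh A B : List Q4) : Prop where
  k1 : leq (lder n) n1 = true
  k2 : leq (lder h) h1 = true
  k3 : leq (lmul D E n1 h) a1 = true
  k4 : leq (lmul D E n h1) a2 = true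
  k5 : leq (ladd a1 (lsm D E IsoT.qm2 a2)) W = true
  k6 : leq (lmul D E W W) W2 = true
  k7 : leq (lmul D E Fl W2) T1 = true
  k8 : leq (lmul D E n n) n2 = true
  k9 : leq (lmul D E n2 n) n3 = true
  k10 : leq (lmul D E h h) h2 = true
  k11 : leq (lmul D E h2 h2) h4 = true
  k12 : leq (lmul D E h4 h2) h6 = true
  k13 : leq (lmul D E n h4) nh = true
  k14 : leq (ladd (ladd (lsm D E (IsoT.qi KF) n3) (lsm D E AM nh)) (lsm D E BM h6)) T1 = true
  k15 : leq (ladd (lmul D E A n) (lmul D E B h)) [IsoT.qi R] = true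

section

variable {O : Type*} [CommRing O] [IsDomain O] {s r : O} {D E : Int} {AM BM : Q4} {KF R : Int}
  {Fl n n1 h h1 a1 a2 W W2 T1 n2 n3 h2 h4 h6 nh A B : List Q4}

theorem Ok.ode (ok : Ok D E AM BM KF R Fl n n1 h h1 a1 a2 W W2 T1 n2 n3 h2 h4 h6 nh A B)
    (hs : s ^ 2 = D) (hr : r ^ 2 = E) {a1' b1' a b m : O} (hKF : (KF : O) ≠ 0)
    (hF : ev s r Fl = C (KF : O) * cub a1' b1') (hA : e4 s r AM = KF * (a * m ^ 4))
    (hB : e4 s r BM = KF * (b * m ^ 6)) :
    cub a1' b1' * C 1 * (derivative (ev s r n) * ev s r h - 2 * ev s r n * derivative (ev s r h)) ^ 2 =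
      ev s r n ^ 3 + C (a * m ^ 4) * C 1 ^ 2 * ev s r n * ev s r h ^ 4 +
        C (b * m ^ 6) * C 1 ^ 3 * ev s r h ^ 6 := by
  have e1 := ev_eq s r _ _ ok.k1
  have e2 := ev_eq s r _ _ ok.k2
  have e3 := ev_eq s r _ _ ok.k3
  have e4' := ev_eq s r _ _ ok.k4
  have e5 := ev_eq s r _ _ ok.k5
  have e6 := ev_eq s r _ _ ok.k6
  have e7 := ev_eq s r _ _ ok.k7
  have e8 := ev_eq s r _ _ ok.k8
  have e9 := ev_eq s r _ _ ok.k9
  have e10 := ev_eq s r _ _ ok.k10
  have e11 := ev_eq s r _ _ ok.k11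
  have e12 := ev_eq s r _ _ ok.k12
  have e13 := ev_eq s r _ _ ok.k13
  have e14 := ev_eq s r _ _ ok.k14
  simp only [ev_add, ev_der, ev_mul hs hr, ev_sm hs hr, IsoT.e4_qm2, IsoT.e4_qi] at e1 e2 e3 e4' e5 e6 e7 e8 e9 e10 e11 e12 e13 e14
  rw [hA, hB] at e14
  rw [hF] at e7
  have hC : (C (KF : O) : O[X]) ≠ 0 := C_ne_zero.mpr hKF
  apply mul_left_cancel₀ hC
  have hW : derivative (ev s r n) * ev s r h - 2 * ev s r n * derivative (ev s r h) = ev s r W := by
    rw [← e5, ← e3, ← e4', e1, e2]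
    simp only [C_neg, map_ofNat]
    ring
  rw [hW]
  have h6' : ev s r h ^ 6 = ev s r h6 := by
    rw [← e12, ← e11, ← e10]; ring
  have hn3 : ev s r n ^ 3 = ev s r n3 := by
    rw [← e9, ← e8]; ring
  have hnh : ev s r n * ev s r h ^ 4 = ev s r nh := by
    rw [← e13, ← e11, ← e10]; ring
  have hT : C (KF : O) * cub a1' b1' * ev s r W ^ 2 = ev s r T1 := by
    rw [← e7, ← e6]; ring
  simp only [C_mul, C_1] at e14 ⊢
  rw [h6', hn3]
  linear_combination hT - e14 - C (KF : O) * (C a * C (m ^ 4)) * hnh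

theorem Ok.bez (ok : Ok D E AM BM KF R Fl n n1 h h1 a1 a2 W W2 T1 n2 n3 h2 h4 h6 nh A B)
    (hs : s ^ 2 = D) (hr : r ^ 2 = E) : ev s r A * ev s r n + ev s r B * ev s r h = C (R : O) := by
  have e15 := ev_eq s r _ _ ok.k15
  simp only [ev_add, ev_mul hs hr, ev, IsoT.e4_qi] at e15
  rw [e15]; ring

end

section scale

variable {O K k : Type*} [CommRing O] [IsDomain O] [Field K] [Algebra O K] [Field k]
  (S : DV O K k)

/-- the change of scale for an endomorphism -/
theorem Dat.scale {a b c B m : O} {l : ℕ} (h : Dat S (cub a b) a b m l) (hc : S.red c ≠ 0)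
    (ha : a = -3 * c ^ 2) (hb : b = B * c ^ 3) : Dat S (cub (-3) B) (-3) B m l := by
  obtain ⟨n, d, ode, hd, hdeg, hnl, copK, copk, hl⟩ := h
  have hc0 : c ≠ 0 := by intro h0; rw [h0, map_zero] at hc; exact hc rfl
  obtain ⟨e, he⟩ := (S.unit_of_red hc).exists_left_inv
  have hcK : algebraMap O K c ≠ 0 := fun h0 => hc0 (S.inj (by rw [h0, map_zero]))
  have hceC : (C e * C c : O[X]) = 1 := by rw [← C_mul, he, C_1]
  have hdL : (C c * X : O[X]).natDegree = 1 := natDegree_C_mul_X c hc0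
  have hL0 : ∀ P : O[X], P ≠ 0 → P.comp (C c * X) ≠ 0 := by
    intro P hP h0
    rw [comp_eq_zero_iff] at h0
    rcases h0 with h | h
    · exact hP h
    · have h2 := congrArg natDegree h.2
      rw [hdL, natDegree_C] at h2
      exact one_ne_zero h2
  have hdc : ∀ P : O[X], (P.comp (C c * X)).natDegree = P.natDegree := by
    intro P; rw [natDegree_comp, hdL, mul_one]
  have hcC0 : (C c : O[X]) ≠ 0 := C_ne_zero.mpr hc0
  have hwr : wr (n.comp (C c * X)) (C c * d.comp (C c * X)) = C c ^ 2 * (wr n d).comp (C c * X) := by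
    simp only [wr, derivative_mul, derivative_C, derivative_comp, derivative_X, sub_comp, mul_comp]
    ring
  refine ⟨n.comp (C c * X), C c * d.comp (C c * X), ?_, mul_ne_zero hcC0 (hL0 d hd), ?_, ?_, ?_, ?_, ?_⟩
  · have hcomp := congrArg (fun P => P.comp (C c * X)) ode
    simp only [mul_comp, pow_comp, C_comp] at hcomp
    have e1 : (cub a b).comp (C c * X) = C c ^ 3 * cub (-3) B := by
      rw [ha, hb]
      simp only [cub, add_comp, pow_comp, mul_comp, X_comp, C_comp, C_mul, C_pow, C_neg, neg_comp]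
      ring
    have e2 : (tgt a b n d).comp (C c * X) * C c = tgt (-3) B (n.comp (C c * X)) (C c * d.comp (C c * X)) := by
      rw [ha, hb]
      simp only [tgt, add_comp, pow_comp, mul_comp, C_comp, C_mul, C_pow, C_neg, neg_comp]
      ring
    rw [hwr, ← e2]
    rw [e1] at hcomp
    linear_combination C c * hcomp
  · rw [natDegree_C_mul hc0, hdc, hdc]; exact hdeg
  · rw [hdc]; exact hnl
  · rw [Polynomial.map_comp, Polynomial.map_mul, Polynomial.map_mul, Polynomial.map_comp, map_C, map_X, Polynomial.map_mul,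
      map_C, map_X]
    have hu : IsUnit (C (algebraMap O K c) : K[X]) := isUnit_C.mpr (isUnit_iff_ne_zero.mpr hcK)
    rw [isCoprime_mul_unit_left_right hu]
    obtain ⟨u, v, huv⟩ := copK
    refine ⟨u.comp (C (algebraMap O K c) * X), v.comp (C (algebraMap O K c) * X), ?_⟩
    rw [← mul_comp, ← mul_comp, ← add_comp, huv, one_comp]
  · rw [Polynomial.map_comp, Polynomial.map_mul, Polynomial.map_mul, Polynomial.map_comp, map_C, map_X, Polynomial.map_mul,
      map_C, map_X]
    have hu : IsUnit (C (S.red c) : k[X]) := isUnit_C.mpr (isUnit_iff_ne_zero.mpr hc)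
    rw [isCoprime_mul_unit_left_right hu]
    obtain ⟨u, v, huv⟩ := copk
    refine ⟨u.comp (C (S.red c) * X), v.comp (C (S.red c) * X), ?_⟩
    rw [← mul_comp, ← mul_comp, ← add_comp, huv, one_comp]
  · rw [Polynomial.map_comp, Polynomial.map_mul, map_C, map_X, natDegree_comp, natDegree_C_mul_X _ hc, mul_one, hl, hdc]

end scale

end Pool.Agent.H546.L1
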