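import Pool.Agent.H546.QSer
import Pool.Agent.H546.QMod

set_option autoImplicit false

/-!
# Series for the family `y² = x³ - 3x + 4z - 2` at infinity
-/

namespace Pool.Agent.H546.L1

open PowerSeries Finset

variable {R : Type*} [CommRing R]

/-- the series `(1 + X⁴)^(-1/2)`, where `v` is one half -/
noncomputable def hs (v : R) : R⟦X⟧ := PowerSeries.expand 2 (by norm_num) (lgs v)

theorem hs_sq {v : R} (hv : 2 * v = 1) : hs v ^ 2 * (1 + X ^ 4) = 1 := by
  have h := congrArg (PowerSeries.expand 2 (by norm_num : (2:ℕ) ≠ 0)) (lgs_sq v)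
  rw [map_mul, map_pow, map_one] at h
  simp only [map_add, map_sub, map_mul, map_one, map_pow, map_ofNat, PowerSeries.expand_X,
    PowerSeries.expand_C] at h
  have h2 : (2 : R⟦X⟧) * C v = 1 := by
    have : (2 : R⟦X⟧) = C 2 := (map_ofNat C 2).symm
    rw [this, ← map_mul, hv, map_one]
  unfold hs
  linear_combination h - (2 * (PowerSeries.expand 2 (by norm_num : (2:ℕ) ≠ 0) (lgs v)) ^ 2 * X ^ 2) * h2

theorem hs_coeff (v : R) (n : ℕ) : coeff n (hs v) = if 2 ∣ n then lg (n / 2) v else 0 := by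
  unfold hs
  rw [coeff_expand]
  simp [lgs]

theorem hs_const (v : R) : constantCoeff (hs v) = 1 := by
  rw [← coeff_zero_eq_constantCoeff_apply, hs_coeff]
  simp [lg_zero]

theorem hs_map {T : Type*} [CommRing T] (f : R →+* T) (v : R) : PowerSeries.map f (hs v) = hs (f v) := by
  ext n
  rw [PowerSeries.coeff_map, hs_coeff, hs_coeff]
  split_ifs with h
  · have := congrArg (coeff (n / 2)) (lgs_map f v)
    rw [PowerSeries.coeff_map] at this
    simpa [lgs] using this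
  · simp

/-- the local parameter: `Y² = 1/x` -/
noncomputable def Ys (v : R) : R⟦X⟧ := X * hs v

theorem Ys_const (v : R) : constantCoeff (Ys v) = 0 := by
  unfold Ys; simp

theorem Ys_pow (v : R) (n : ℕ) : Ys v ^ n = X ^ n * hs v ^ n := by
  unfold Ys; rw [mul_pow]

theorem Ys_map {T : Type*} [CommRing T] (f : R →+* T) (v : R) : PowerSeries.map f (Ys v) = Ys (f v) := by
  unfold Ys
  rw [map_mul, PowerSeries.map_X, hs_map]

/-- derivative of the local parameter -/
theorem Ys_der {v : R} (hv : 2 * v = 1) : d⁄dX R (Ys v) = hs v ^ 3 * (1 - X ^ 4) := by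
  have h := hs_sq hv
  have hd := congrArg (d⁄dX R) h
  rw [Derivation.leibniz, derivative_pow, map_add, derivative_one, derivative_pow, derivative_X, smul_eq_mul,
    smul_eq_mul] at hd
  push_cast at hd
  have h2 : (2 : R⟦X⟧) * C v = 1 := by
    have : (2 : R⟦X⟧) = C 2 := (map_ofNat C 2).symm
    rw [this, ← map_mul, hv, map_one]
  unfold Ys
  rw [Derivation.leibniz, derivative_X, smul_eq_mul, smul_eq_mul]
  set g := hs v
  set g' := d⁄dX R g
  -- g' = -2 X³ g³
  have hg' : g' = -2 * X ^ 3 * g ^ 3 := by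
    linear_combination (C v * g) * hd - (g' * (2 * C v)) * h - g' * h2 - (2 * X ^ 3 * g ^ 3) * h2
  rw [hg']
  linear_combination (-g) * h

theorem Ys_der_const {v : R} (hv : 2 * v = 1) : constantCoeff (d⁄dX R (Ys v)) = 1 := by
  rw [Ys_der hv, map_mul, map_pow, hs_const]
  simp

theorem coeff_YY {v : R} (hv : 2 * v = 1) (n : ℕ) : coeff n (Ys v ^ n * d⁄dX R (Ys v)) = 1 := by
  rw [Ys_pow, mul_assoc, coeff_low, map_mul, map_pow, hs_const, Ys_der_const hv]
  simp

/-- the series of the Legendre polynomials in `X⁶` -/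
noncomputable def ps6 (z : R) : R⟦X⟧ := PowerSeries.expand 6 (by norm_num) (lgs z)

theorem ps6_sq (z : R) : ps6 z ^ 2 * ((1 - X ^ 6) ^ 2 + 4 * C z * X ^ 6) = 1 := by
  have h := congrArg (PowerSeries.expand 6 (by norm_num : (6:ℕ) ≠ 0)) (lgs_sq z)
  rw [map_mul, map_pow, map_one] at h
  simp only [map_add, map_sub, map_mul, map_one, map_pow, map_ofNat, PowerSeries.expand_X,
    PowerSeries.expand_C] at h
  have : (1 - X ^ 6 : R⟦X⟧) ^ 2 + 4 * C z * X ^ 6 = 1 - 2 * (1 - 2 * C z) * X ^ 6 + (X ^ 6) ^ 2 := by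
    ring
  rw [this]
  exact h

theorem ps6_coeff (z : R) (n : ℕ) : coeff n (ps6 z) = if 6 ∣ n then lg (n / 6) z else 0 := by
  unfold ps6
  rw [coeff_expand]
  simp [lgs]

/-- the differential -/
noncomputable def cs6 (z : R) : R⟦X⟧ := (1 - X ^ 4) * ps6 z

theorem cs6_coeff1 (z : R) (p : ℕ) (h1 : p % 6 = 1) : coeff (p - 1) (cs6 z) = lg (p / 6) z := by
  obtain ⟨m, rfl⟩ : ∃ m, p = m + 1 := ⟨p - 1, by omega⟩
  rw [Nat.add_sub_cancel]
  unfold cs6
  rw [sub_mul, one_mul, map_sub, ps6_coeff, coeff_X_pow_mul', if_pos (by omega)]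
  have e : (m + 1) / 6 = m / 6 := by omega
  rw [e]
  split_ifs with h2
  · rw [ps6_coeff, if_neg (by omega), sub_zero]
  · rw [sub_zero]

theorem cs6_coeff5 (z : R) (p : ℕ) (h1 : p % 6 = 5) : coeff (p - 1) (cs6 z) = -lg (p / 6) z := by
  obtain ⟨m, rfl⟩ : ∃ m, p = m + 5 := ⟨p - 5, by omega⟩
  rw [show m + 5 - 1 = m + 4 by omega]
  unfold cs6
  rw [sub_mul, one_mul, map_sub, ps6_coeff, coeff_X_pow_mul', if_neg (by omega), if_pos (by omega),
    show m + 4 - 4 = m by omega, ps6_coeff, if_pos (by omega), zero_sub]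
  congr 2
  omega

/-- the right hand side in the parameter at infinity -/
noncomputable def gu6 {R : Type*} [CommRing R] (z : R) : Polynomial R :=
  1 - 3 * Polynomial.X ^ 2 + Polynomial.C (4 * z - 2) * Polynomial.X ^ 3

theorem fam6 {v : R} (hv : 2 * v = 1) (z : R) :
    (1 - 3 * (Ys v ^ 2) ^ 2 + C (4 * z - 2) * (Ys v ^ 2) ^ 3) =
    hs v ^ 6 * ((1 - X ^ 6) ^ 2 + 4 * C z * X ^ 6) := by
  have h := hs_sq hv
  have h4 : (C (4 * z - 2) : R⟦X⟧) = 4 * C z - 2 := by rw [map_sub, map_mul, map_ofNat, map_ofNat]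
  unfold Ys
  rw [h4]
  set g := hs v
  -- (1+X⁴)³ - 3X⁴(1+X⁴) = 1 + X¹²
  have h3 : (g ^ 2 * (1 + X ^ 4)) ^ 3 = 1 := by rw [h, one_pow]
  linear_combination (-(1 : R⟦X⟧)) * h3 + (3 * X ^ 4 * g ^ 4) * h

end Pool.Agent.H546.L1
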