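import Pool.Agent.H546.QFin
import Pool.Agent.H546.L1.Ser

set_option autoImplicit false

/-!
# The sums `∑ C(2k,k) C(3k,k) C(6k,3k) / M^k` modulo `p²`
-/

namespace Pool.Agent.H546.L1

open Finset
open Pool.Agent.Q267.Seven (dl dl_succ)
open Pool.Agent.Q267.MW (dl_vanish clausen_gen)
open Pool.Agent.Q267.CDE (R p_sq isUnit_nat isUnit_of_red)

/-- `C(3k,k) C(6k,3k)` -/
def u6 (k : ℕ) : ℕ := (3 * k).choose k * (3 * k).centralBinom

theorem u6_fac (k : ℕ) : u6 k * (k.factorial * (2 * k).factorial * (3 * k).factorial) = (6 * k).factorial := by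
  have h1 := Nat.choose_mul_factorial_mul_factorial (show k ≤ 3 * k by omega)
  have h2 := Nat.choose_mul_factorial_mul_factorial (show 3 * k ≤ 2 * (3 * k) by omega)
  rw [show 3 * k - k = 2 * k by omega] at h1
  rw [show 2 * (3 * k) - 3 * k = 3 * k by omega, show 2 * (3 * k) = 6 * k by ring] at h2
  have h3 : (3 * k).centralBinom = (6 * k).choose (3 * k) := by
    rw [Nat.centralBinom, show 2 * (3 * k) = 6 * k by ring]
  rw [← h3] at h2
  unfold u6
  have e : (3 * k).choose k * (3 * k).centralBinom * (k.factorial * (2 * k).factorial * (3 * k).factorial) =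
      (3 * k).centralBinom * ((3 * k).choose k * k.factorial * (2 * k).factorial) * (3 * k).factorial := by ring
  rw [e, h1, h2]

theorem u6_succ (k : ℕ) : u6 (k + 1) * (k + 1) ^ 2 = 12 * (6 * k + 1) * (6 * k + 5) * u6 k := by
  have h0 := u6_fac k
  have h1 := u6_fac (k + 1)
  have e2 : 2 * (k + 1) = 2 * k + 1 + 1 := by ring
  have e3 : 3 * (k + 1) = 3 * k + 1 + 1 + 1 := by ring
  have e6 : 6 * (k + 1) = 6 * k + 1 + 1 + 1 + 1 + 1 + 1 := by ring
  rw [e2, e3, e6] at h1
  simp only [Nat.factorial_succ] at h1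
  rw [← h0] at h1
  have hpos : 0 < (k + 1) * 6 * (2 * k + 1) * (3 * k + 1) * (3 * k + 2) * (k.factorial * (2 * k).factorial * (3 * k).factorial) := by
    have := k.factorial_pos
    have := (2 * k).factorial_pos
    have := (3 * k).factorial_pos
    positivity
  apply Nat.eq_of_mul_eq_mul_right hpos
  set A := u6 (k + 1)
  set B := u6 k
  set F1 := k.factorial
  set F2 := (2 * k).factorial
  set F3 := (3 * k).factorial
  zify at h1 ⊢
  linear_combination h1

variable (p : ℕ) [hp : Fact p.Prime]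

theorem unit6 (hp5 : 5 ≤ p) : IsUnit (6 : R p) := by
  apply isUnit_of_red
  rw [map_ofNat]
  intro h
  have : ((6 : ℕ) : ZMod p) = 0 := by exact_mod_cast h
  rw [ZMod.natCast_eq_zero_iff] at this
  have h6 : p ∣ 2 * 3 := this
  rcases (Nat.Prime.dvd_mul hp.out).mp h6 with h2 | h2
  · have := Nat.le_of_dvd (by norm_num) h2
    omega
  · have := Nat.le_of_dvd (by norm_num) h2
    omega

theorem mod6 (hp5 : 5 ≤ p) : p % 6 = 1 ∨ p % 6 = 5 := by
  have h2 : ¬ 2 ∣ p := fun h => by
    have := (Nat.prime_dvd_prime_iff_eq (by norm_num) hp.out).mp h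
    omega
  have h3 : ¬ 3 ∣ p := fun h => by
    have := (Nat.prime_dvd_prime_iff_eq (by norm_num) hp.out).mp h
    omega
  omega

theorem idx6 (hp5 : 5 ≤ p) : ∃ e : R p,
    36 * (((p / 6 : ℕ) : R p) * (((p / 6 : ℕ) : R p) + 1)) = -5 + 4 * e * p ∧
    36 * (((5 * p / 6 : ℕ) : R p) * (((5 * p / 6 : ℕ) : R p) + 1)) = -5 - 20 * e * p := by
  have hpp := p_sq p
  rcases mod6 p hp5 with h | h
  · obtain ⟨n, hn⟩ : ∃ n, p = 6 * n + 1 := ⟨p / 6, by omega⟩
    have e1 : p / 6 = n := by omega
    have e2 : 5 * p / 6 = 5 * n := by omega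
    have hn' := congrArg (Nat.cast : ℕ → R p) hn
    push_cast at hn'
    refine ⟨1, ?_, ?_⟩
    · rw [e1]
      linear_combination hpp - ((p : R p) + 6 * n + 1 + 4) * hn'
    · rw [e2]
      push_cast
      linear_combination 25 * hpp - (25 * (p : R p) + 25 * (6 * n + 1) - 20) * hn'
  · obtain ⟨n, hn⟩ : ∃ n, p = 6 * n + 5 := ⟨p / 6, by omega⟩
    have e1 : p / 6 = n := by omega
    have e2 : 5 * p / 6 = 5 * n + 4 := by omega
    have hn' := congrArg (Nat.cast : ℕ → R p) hn
    push_cast at hn'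
    refine ⟨-1, ?_, ?_⟩
    · rw [e1]
      linear_combination hpp - ((p : R p) + 6 * n + 5 - 4) * hn'
    · rw [e2]
      push_cast
      linear_combination 25 * hpp - (25 * (p : R p) + 25 * (6 * n + 5) + 20) * hn'

theorem u6_leg (hp5 : 5 ≤ p) (k : ℕ) (hk : k < p) :
    6 * ((u6 k : ℕ) : R p) = 432 ^ k * (5 * (dl (p / 6) k : R p) + (dl (5 * p / 6) k : R p)) ∧
    (p : R p) * (dl (p / 6) k : R p) = p * (dl (5 * p / 6) k : R p) := by
  have hpp := p_sq p
  obtain ⟨e, h1, h2⟩ := idx6 p hp5
  have h6u : IsUnit (6 : R p) := unit6 p hp5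
  induction k with
  | zero =>
    simp only [pow_zero, one_mul]
    unfold u6 dl
    norm_num
  | succ k ih =>
    obtain ⟨i1, i2⟩ := ih (by omega)
    have hu : IsUnit (((k : R p) + 1) ^ 2) := by
      have := isUnit_nat p (k + 1) (by omega) (by omega)
      push_cast at this
      exact this.pow 2
    have a1 := congrArg (Int.cast : ℤ → R p) (dl_succ (p / 6) k)
    have a2 := congrArg (Int.cast : ℤ → R p) (dl_succ (5 * p / 6) k)
    have a3 := congrArg (Nat.cast : ℕ → R p) (u6_succ k)
    rw [Int.cast_mul, Int.cast_mul, Int.cast_sub, Int.cast_mul, Int.cast_add, Int.cast_add,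
      Int.cast_pow, Int.cast_pow, Int.cast_add, Int.cast_natCast, Int.cast_natCast, Int.cast_one]
      at a1 a2
    rw [Nat.cast_mul, Nat.cast_mul, Nat.cast_pow, Nat.cast_add, Nat.cast_mul, Nat.cast_mul,
      Nat.cast_add, Nat.cast_add, Nat.cast_mul, Nat.cast_one, Nat.cast_ofNat, Nat.cast_ofNat] at a3
    set N1 : R p := ((p / 6 : ℕ) : R p)
    set N2 : R p := ((5 * p / 6 : ℕ) : R p)
    set A : R p := (dl (p / 6) k : R p)
    set B : R p := (dl (5 * p / 6) k : R p)
    set A' : R p := (dl (p / 6) (k + 1) : R p)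
    set B' : R p := (dl (5 * p / 6) (k + 1) : R p)
    set K : R p := (k : R p)
    set P : R p := (p : R p)
    constructor
    · apply hu.mul_right_cancel
      rw [pow_succ (432 : R p) k]
      linear_combination 6 * a3 + (432 * K ^ 2 + 432 * K + 60) * i1 -
        432 * 432 ^ k * (5 * a1 + a2) + 432 ^ k * 12 * (5 * A * h1 + B * h2) +
        432 ^ k * 240 * e * i2
    · apply hu.mul_right_cancel
      apply (h6u.pow 2).mul_left_cancel
      linear_combination 36 * P * (a1 - a2) + (36 * K ^ 2 + 36 * K + 5) * i2 -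
        P * (A * h1 - B * h2) - (4 * A + 20 * B) * e * hpp

theorem sum_six (hp5 : 5 ≤ p) (w : R p) :
    6 * ∑ k ∈ range p, (k.centralBinom : R p) * ((u6 k : ℕ) : R p) * w ^ k =
      5 * ∑ k ∈ range p, (dl (p / 6) k : R p) * (k.centralBinom : R p) * (432 * w) ^ k +
        ∑ k ∈ range p, (dl (5 * p / 6) k : R p) * (k.centralBinom : R p) * (432 * w) ^ k := by
  rw [mul_sum, mul_sum, ← sum_add_distrib]
  refine sum_congr rfl fun k hk => ?_
  obtain ⟨h1, -⟩ := u6_leg p hp5 k (mem_range.mp hk)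
  rw [mul_pow]
  linear_combination (k.centralBinom : R p) * w ^ k * h1

variable {p}

section sums

variable {O K k : Type*} [CommRing O] [IsDomain O] [Field K] [Algebra O K] [Field k]
  (S : DV O K k) [CharP k p]

/-- thirty-six times the sum as a square in the quotient -/
theorem sum_sq6 (hp5 : 5 ≤ p) {A : Type*} [CommRing A] (th : R p →+* A) (z : A) (wi : R p)
    (hz : z * (1 - z) = th (432 * wi)) :
    36 * th (∑ k ∈ range p, (k.centralBinom : R p) * ((u6 k : ℕ) : R p) * wi ^ k) =
      (5 * lg (p / 6) z + lg (5 * p / 6) z) ^ 2 ∧ (p : A) * lg (p / 6) z = p * lg (5 * p / 6) z := by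
  have hp2 : p ≠ 2 := by omega
  have hS := congrArg th (sum_six p hp5 wi)
  have c1 := clausen_gen p (p / 6) (by omega) z _ hz
  have c2 := clausen_gen p (5 * p / 6) (by omega) z _ hz
  rw [lg_ext _ _ (by omega)] at c1 c2
  rw [map_add, map_mul, map_mul, map_sum th _ (range p), map_sum th _ (range p),
    map_sum th _ (range p)] at hS
  have e1 : ∑ x ∈ range p, th ((dl (p / 6) x : R p) * (x.centralBinom : R p) * (432 * wi) ^ x) =
      lg (p / 6) z ^ 2 := by
    rw [c1]
    refine sum_congr rfl fun x _ => ?_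
    rw [map_mul, map_mul, map_intCast, map_natCast, map_pow]
  have e2 : ∑ x ∈ range p, th ((dl (5 * p / 6) x : R p) * (x.centralBinom : R p) * (432 * wi) ^ x) =
      lg (5 * p / 6) z ^ 2 := by
    rw [c2]
    refine sum_congr rfl fun x _ => ?_
    rw [map_mul, map_mul, map_intCast, map_natCast, map_pow]
  rw [e1, e2] at hS
  have hP : (p : A) * lg (p / 6) z = p * lg (5 * p / 6) z := by
    rw [← lg_ext (p / 6) p (by omega), ← lg_ext (5 * p / 6) p (by omega), mul_sum, mul_sum]
    refine sum_congr rfl fun x hx => ?_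
    obtain ⟨-, h2⟩ := u6_leg p hp5 x (mem_range.mp hx)
    have := congrArg th h2
    rw [map_mul, map_mul, map_natCast, map_intCast, map_intCast] at this
    linear_combination z ^ x * this
  refine ⟨?_, hP⟩
  set a := lg (p / 6) z
  set b := lg (5 * p / 6) z
  have hd : (a - b) ^ 2 = 0 := by
    have hcoef : ∀ x ∈ range p, ∃ y : R p, (dl (p / 6) x : R p) - (dl (5 * p / 6) x : R p) = p * y := by
      intro x hx
      obtain ⟨-, h2⟩ := u6_leg p hp5 x (mem_range.mp hx)
      have h4 : (((dl (p / 6) x - dl (5 * p / 6) x) * p : ℤ) : ZMod (p ^ 2)) = 0 := by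
        push_cast
        linear_combination h2
      rw [ZMod.intCast_zmod_eq_zero_iff_dvd] at h4
      obtain ⟨c, hc⟩ := h4
      refine ⟨(c : R p), ?_⟩
      have hp0 : (p : ℤ) ≠ 0 := by exact_mod_cast hp.out.ne_zero
      have h5 : dl (p / 6) x - dl (5 * p / 6) x = p * c := by
        apply mul_right_cancel₀ hp0
        rw [hc]; push_cast; ring
      have := congrArg (Int.cast : ℤ → R p) h5
      push_cast at this
      exact this
    choose! y hy using hcoef
    have hab : a - b = (p : A) * ∑ x ∈ range p, th (y x) * z ^ x := by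
      show lg (p / 6) z - lg (5 * p / 6) z = _
      rw [← lg_ext (p / 6) p (by omega), ← lg_ext (5 * p / 6) p (by omega), ← sum_sub_distrib, mul_sum]
      refine sum_congr rfl fun x hx => ?_
      have := congrArg th (hy x hx)
      rw [map_sub, map_mul, map_natCast, map_intCast, map_intCast] at this
      linear_combination z ^ x * this
    have hpp : (p : A) ^ 2 = 0 := by
      have := congrArg th (Pool.Agent.Q267.CDE.p_sq p)
      rw [map_pow, map_natCast, map_zero] at this
      exact this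
    rw [hab, mul_pow, hpp, zero_mul]
  have h3' : th 5 = 5 := map_ofNat th 5
  have h4' : th 6 = 6 := map_ofNat th 6
  rw [h3', h4', ← map_sum th _ (range p)] at hS
  linear_combination 6 * hS + 5 * hd

theorem unit36 (hp5 : 5 ≤ p) : IsUnit (36 : R p) := by
  have : (36 : R p) = 6 ^ 2 := by norm_num
  rw [this]; exact (unit6 p hp5).pow 2

include S in
/-- the sum modulo `p²` from the unit root -/
theorem sum_final6 (hp5 : 5 ≤ p) (hq : S.q = (p : O)) {z w : O} {m : ℤ} (hm : ¬ (p : ℤ) ∣ m)
    (hmz : (m : O) * (z * (1 - z)) = 432) {wi : R p} (hwi : (m : R p) * wi = 1) (E : ℤ)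
    (hE : (p : O) ^ 2 ∣ (E : O) * w ^ 2 - 1)
    (key : ∃ ε : O, ε ^ 2 = 1 ∧ (p : O) ^ 2 ∣ ε * w * (5 * lg (p / 6) z + lg (5 * p / 6) z) - 6) :
    ∑ k ∈ range p, (k.centralBinom : R p) * ((u6 k : ℕ) : R p) * wi ^ k = (E : R p) := by
  have := charQ S (p := p) hq
  set th : R p →+* QO O p := ZMod.castHom (dvd_refl _) (QO O p) with hth
  have thinj : Function.Injective th := ZMod.castHom_injective _
  set mk := Ideal.Quotient.mk (Ideal.span {(p : O) ^ 2}) with hmk
  have mkz : ∀ x : O, (p : O) ^ 2 ∣ x → mk x = 0 := by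
    intro x hx
    rw [Ideal.Quotient.eq_zero_iff_mem, Ideal.mem_span_singleton]
    exact hx
  have hmu : IsUnit ((m : R p)) := IsUnit.of_mul_eq_one _ hwi
  have hmu' : IsUnit (th (m : R p)) := hmu.map th
  have hz : mk z * (1 - mk z) = th (432 * wi) := by
    apply hmu'.mul_left_cancel
    rw [← map_mul th]
    have e : (m : R p) * (432 * wi) = 432 := by linear_combination 432 * hwi
    rw [e, map_ofNat, map_intCast]
    have := congrArg mk hmz
    rw [map_mul, map_intCast, map_mul, map_sub, map_one, map_ofNat] at this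
    exact this
  obtain ⟨h9, -⟩ := sum_sq6 (p := p) hp5 th (mk z) wi hz
  obtain ⟨ε, hε, hk⟩ := key
  have k1 := mkz _ hk
  rw [map_sub, map_mul, map_mul, map_add, map_mul, map_ofNat, map_ofNat, lg_cast, lg_cast] at k1
  have k2 := mkz _ hE
  rw [map_sub, map_mul, map_intCast, map_pow, map_one] at k2
  have hε' : mk ε ^ 2 = 1 := by rw [← map_pow, hε, map_one]
  apply thinj
  rw [map_intCast]
  have h9u' : IsUnit (36 : QO O p) := by
    have := (unit36 (p := p) hp5).map th
    rwa [map_ofNat] at this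
  apply h9u'.mul_left_cancel
  rw [h9]
  set L := 5 * lg (p / 6) (mk z) + lg (5 * p / 6) (mk z) with hL
  have k3 : mk ε * mk w * L = 6 := by linear_combination k1
  have k4 : mk w ^ 2 * L ^ 2 = 36 := by
    linear_combination (mk ε * mk w * L + 6) * k3 - (mk w ^ 2 * L ^ 2) * hε'
  linear_combination (E : QO O p) * k4 - L ^ 2 * k2

include S in
/-- the sum modulo `p²` in the supersingular case -/
theorem sum_zero6 (hp5 : 5 ≤ p) (hq : S.q = (p : O)) {z : O} {m : ℤ}
    (hmz : (m : O) * (z * (1 - z)) = 432) {wi : R p} (hwi : (m : R p) * wi = 1)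
    (hss : S.red (lg (p / 6) z) = 0) :
    ∑ k ∈ range p, (k.centralBinom : R p) * ((u6 k : ℕ) : R p) * wi ^ k = 0 := by
  have := charQ S (p := p) hq
  set th : R p →+* QO O p := ZMod.castHom (dvd_refl _) (QO O p) with hth
  have thinj : Function.Injective th := ZMod.castHom_injective _
  set mk := Ideal.Quotient.mk (Ideal.span {(p : O) ^ 2}) with hmk
  have hmu : IsUnit ((m : R p)) := IsUnit.of_mul_eq_one _ hwi
  have hmu' : IsUnit (th (m : R p)) := hmu.map th
  have hz : mk z * (1 - mk z) = th (432 * wi) := by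
    apply hmu'.mul_left_cancel
    rw [← map_mul th]
    have e : (m : R p) * (432 * wi) = 432 := by linear_combination 432 * hwi
    rw [e, map_ofNat, map_intCast]
    have := congrArg mk hmz
    rw [map_mul, map_intCast, map_mul, map_sub, map_one, map_ofNat] at this
    exact this
  obtain ⟨h9, hP⟩ := sum_sq6 (p := p) hp5 th (mk z) wi hz
  have hpp : (mk (p : O)) ^ 2 = 0 := by
    rw [← map_pow, Ideal.Quotient.eq_zero_iff_mem, Ideal.mem_span_singleton]
  obtain ⟨y, hy⟩ := (S.red_iff _).mp hss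
  rw [hq] at hy
  have e1 : lg (p / 6) (mk z) = mk (p : O) * mk y := by rw [← lg_cast, hy, map_mul]
  have hP' : mk (p : O) * lg (5 * p / 6) (mk z) = 0 := by
    have h1 : ((p : ℕ) : QO O p) = mk (p : O) := (map_natCast mk p).symm
    rw [h1] at hP
    rw [← hP, e1]
    linear_combination mk y * hpp
  have hb : ∃ y', lg (5 * p / 6) z = (p : O) * y' := by
    rw [← lg_cast, ← map_mul, Ideal.Quotient.eq_zero_iff_mem, Ideal.mem_span_singleton] at hP'
    obtain ⟨c, hc⟩ := hP'
    refine ⟨c, ?_⟩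
    have hp0 : (p : O) ≠ 0 := by rw [← hq]; exact S.q_ne
    apply mul_left_cancel₀ hp0
    rw [hc]; ring
  obtain ⟨y', hy'⟩ := hb
  have e2 : lg (5 * p / 6) (mk z) = mk (p : O) * mk y' := by rw [← lg_cast, hy', map_mul]
  apply thinj
  rw [map_zero]
  have h9u' : IsUnit (36 : QO O p) := by
    have := (unit36 (p := p) hp5).map th
    rwa [map_ofNat] at this
  apply h9u'.mul_left_cancel
  rw [h9, e1, e2, mul_zero]
  linear_combination (5 * mk y + mk y') ^ 2 * hpp


end sums

end Pool.Agent.H546.L1
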