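import Pool.Agent.H546.L1.Key
import Pool.Agent.H546.L1.Sums
import Pool.Agent.H888.L1Hasse
import Pool.Agent.H546.QCM

set_option autoImplicit false

/-!
# The sums from two isogenies, level one
-/

namespace Pool.Agent.H546.L1

open Finset
open Pool.Agent.Q267.CDE (R)

section uv

open Polynomial

variable {O K k : Type*} [CommRing O] [IsDomain O] [Field K] [Algebra O K] [Field k]
  (S : DV O K k)

/-- passage to the parameter `U = 1/x` -/
theorem to_uv6 {p : ℕ} [hp : Fact p.Prime] [CharP k p] {z z' w : O}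
    {N D M : O[X]} (hN : N.map S.red = X ^ p) (hD : D.map S.red = 1)
    (hNd : N.natDegree ≤ p) (hDd : D.natDegree < p) (hwr : wr N D = C S.q * M)
    (ode : cub (-3) (4 * z - 2) * M ^ 2 = C w ^ 2 * tgt (-3) (4 * z' - 2) N D) :
    ∃ N' D' M' : O[X], N'.map S.red = X ^ p ∧ D'.map S.red = 1 ∧ N'.natDegree ≤ p ∧ D'.natDegree ≤ p ∧
      N'.coeff 0 = 0 ∧ wr N' D' = C S.q * M' ∧
      X * gu6 z * M' ^ 2 = C w ^ 2 * (N' * (D' ^ 3 - 3 * D' * N' ^ 2 + C (4 * z' - 2) * N' ^ 3)) := by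
  have hp0 := hp.out.pos
  have hp2' := hp.out.two_le
  have hMd : M.natDegree ≤ 2 * p - 2 := by
    rw [← natDegree_C_mul S.q_ne, ← hwr, wr]
    refine (natDegree_sub_le _ _).trans (max_le ?_ ?_)
    · refine natDegree_mul_le.trans ?_
      have := natDegree_derivative_le N
      omega
    · refine natDegree_mul_le.trans ?_
      have := natDegree_derivative_le D
      omega
  have hm : ∀ (m : ℕ) (P : O[X]), (reflect m P).map S.red = reflect m (P.map S.red) := by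
    intro m P
    ext i; simp [coeff_reflect]
  have hdeg : ∀ P : O[X], P.natDegree ≤ p → (reflect p P).natDegree ≤ p := by
    intro P hP
    rw [natDegree_le_iff_coeff_eq_zero]
    intro i hi
    rw [coeff_reflect, revAt_eq_self_of_lt hi, coeff_eq_zero_of_natDegree_lt (lt_of_le_of_lt hP hi)]
  have hX : reflect p (X ^ p : k[X]) = 1 := by
    have := reflect_C_mul_X_pow p p (c := (1 : k))
    rw [C_1, one_mul, one_mul, revAt_le le_rfl, Nat.sub_self, pow_zero] at this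
    exact this
  have h1 : reflect p (1 : k[X]) = X ^ p := by
    have := reflect_C_mul_X_pow p 0 (c := (1 : k))
    rw [C_1, one_mul, one_mul, pow_zero, revAt_le (Nat.zero_le _), Nat.sub_zero] at this
    exact this
  refine ⟨reflect p D, reflect p N, reflect (2 * p - 2) M, ?_, ?_, hdeg D hDd.le, hdeg N hNd, ?_, ?_, ?_⟩
  · rw [hm, hD, h1]
  · rw [hm, hN, hX]
  · rw [coeff_reflect, revAt_le (Nat.zero_le _), Nat.sub_zero]
    exact coeff_eq_zero_of_natDegree_lt hDd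
  · exact wr_reflect hp0 hNd hDd.le hMd hwr
  · exact rev_ode6 hp0 hNd hDd.le hMd ode

end uv

variable {O K k : Type*} [CommRing O] [IsDomain O] [Field K] [Algebra O K] [Field k]
  (S : DV O K k)

/-- **The unit root from two isogenies.** -/
theorem lift6 {p : ℕ} [hp : Fact p.Prime] [CharP k p] [IsAlgClosed k] (hp5 : 5 ≤ p) (hq : S.q = (p : O))
    {z z' : O} (hz : S.red z ≠ 0) (hz1 : S.red (1 - z) ≠ 0) (hz' : S.red z' = S.red z ^ p)
    (hb0 : S.red (4 * z - 2) ≠ 0) {m1 m2 : O} {l1 l2 : ℕ}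
    (hm1 : m1 ≠ 0) (hm2 : m2 ≠ 0)
    (d1 : Dat S (cub (-3) (4 * z - 2)) (-3) (4 * z' - 2) m1 l1)
    (d2 : Dat S (cub (-3) (4 * z - 2)) (-3) (4 * z' - 2) m2 l2)
    (r s t0 : ℤ) (hform : (p : ℤ) = r ^ 2 * l1 + r * s * t0 + s ^ 2 * l2)
    (hr : ¬ (p : ℤ) ∣ r) (hs : ¬ (p : ℤ) ∣ s) (ht0 : t0 ^ 2 ≤ 4 * l1 * l2)
    (hbig : 16 * (l1 * l2) < p ^ 2) {w : O} (hc : (r : O) * m1 + (s : O) * m2 = p * w)
    (hw : S.red w ≠ 0) :
    ∃ ε : O, (ε = 1 ∨ ε = -1) ∧ (p : O) ^ 2 ∣ ε * w * (5 * lg (p / 6) z + lg (5 * p / 6) z) - 6 := by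
  classical
  have h2 : (2 : k) ≠ 0 := by
    have := small_ne (k := k) (p := p) (n := 2) (by norm_num) (by omega)
    exact_mod_cast this
  have h3 : (3 : k) ≠ 0 := by
    have := small_ne (k := k) (p := p) (n := 3) (by norm_num) (by omega)
    exact_mod_cast this
  have frob : ∀ x : k, x ^ p = frobenius k p x := fun x => rfl
  have haa : S.red (-3) = S.red (-3) ^ p := by
    rw [frob]
    simp only [map_neg, map_ofNat]
  have hbb : S.red (4 * z' - 2) = S.red (4 * z - 2) ^ p := by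
    rw [map_sub, map_mul, hz', frob, frob]
    simp only [map_sub, map_mul, map_ofNat]
  have ha0 : S.red (-3) ≠ 0 := by
    rw [map_neg, map_ofNat]; exact neg_ne_zero.mpr h3
  have hΔe : ∀ z : O, 4 * (-3 : O) ^ 3 + 27 * (4 * z - 2) ^ 2 = -(2 ^ 4 * 3 ^ 3) * (z * (1 - z)) := by
    intro z; ring
  have hΔ1 : S.red (4 * (-3) ^ 3 + 27 * (4 * z - 2) ^ 2) ≠ 0 := by
    rw [hΔe, map_mul, map_neg, map_mul, map_mul, map_pow, map_pow, map_ofNat, map_ofNat]
    exact mul_ne_zero (neg_ne_zero.mpr (mul_ne_zero (pow_ne_zero _ h2) (pow_ne_zero _ h3)))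
      (mul_ne_zero hz hz1)
  have hΔ2 : S.red (4 * (-3) ^ 3 + 27 * (4 * z' - 2) ^ 2) ≠ 0 := by
    have e : S.red (4 * (-3) ^ 3 + 27 * (4 * z' - 2) ^ 2) =
        S.red (4 * (-3) ^ 3 + 27 * (4 * z - 2) ^ 2) ^ p := by
      rw [map_add, map_mul, map_mul, map_pow, map_pow, hbb, frob, frob, map_add, map_mul,
        map_mul, map_pow, map_pow]
      simp only [map_add, map_mul, map_pow, map_ofNat, map_neg]
    rw [e]
    exact pow_ne_zero _ hΔ1
  have hf0 := cub_ne (-3 : O) (4 * z - 2)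
  have hlead : S.red (cub (-3) (4 * z - 2)).leadingCoeff ≠ 0 := by
    have : (cub (-3) (4 * z - 2)).leadingCoeff = 1 := by
      have hd : (cub (-3) (4 * z - 2)).natDegree = 3 := by
        unfold cub; compute_degree!
      rw [Polynomial.leadingCoeff, hd]
      simp [cub, Polynomial.coeff_X, Polynomial.coeff_C]
    rw [this, map_one]; exact one_ne_zero
  obtain ⟨P1, g1, n1, e1⟩ := d1.point S hf0 h2 hΔ2 hm1
  obtain ⟨P2, g2, n2, e2⟩ := d2.point S hf0 h2 hΔ2 hm2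
  have hcr : S.red ((r : O) * m1 + (s : O) * m2) = 0 := by
    rw [hc, ← hq, map_mul, S.red_q, zero_mul]
  obtain ⟨nv, gv', hv⟩ := form_value S (p := p) hlead h2 hΔ2 g1 n1 g2 n2 r s t0
    (by rw [e1, e2]; exact hform) hr hs (by rw [e1, e2]; exact ht0) (by rw [e1, e2]; exact hbig) hcr
  rw [hc, ← hq] at gv'
  obtain ⟨n, d, M, f1, f2, f3, f4, f5, f6⟩ := frob_struct S (p := p) (by omega) (by omega) haa hbb ha0 hb0 hΔ1
    nv gv' hv hw
  obtain ⟨N2, D2, M2, v1, v2, v3, v4, v5, v6, v7⟩ := to_uv6 S f1 f2 f3 f4 f5 f6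
  obtain ⟨ε, hε, hk⟩ := key6 S (by omega) hq hz' hw v1 v2 v3 v4 v5 v6 v7
  rw [hq] at hk
  rcases mod6 p hp5 with h | h
  · rw [cs6_coeff1 z p h, cs6_coeff5 z (5 * p) (by omega)] at hk
    refine ⟨ε, hε, ?_⟩
    have : 5 * lg (p / 6) z + lg (5 * p / 6) z = 5 * lg (p / 6) z - -lg (5 * p / 6) z := by ring
    rw [this]; exact hk
  · rw [cs6_coeff5 z p h, cs6_coeff1 z (5 * p) (by omega)] at hk
    refine ⟨-ε, by rcases hε with h | h <;> rw [h] <;> simp, ?_⟩
    have : -ε * w * (5 * lg (p / 6) z + lg (5 * p / 6) z) = ε * w * (5 * -lg (p / 6) z - lg (5 * p / 6) z) := by ring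
    rw [this]; exact hk

section forms

variable {p : ℕ} [hp : Fact p.Prime] [CharP k p]

/-- **The value of the sum from two isogenies.** -/
theorem sum_form6 [IsAlgClosed k] (hp5 : 5 ≤ p) (hq : S.q = (p : O))
    {z z' : O} {M : ℤ} (hM : ¬ (p : ℤ) ∣ M) (hMz : (M : O) * (z * (1 - z)) = 432)
    (hz : S.red z ≠ 0) (hz1 : S.red (1 - z) ≠ 0) (hz' : S.red z' = S.red z ^ p)
    (hb0 : S.red (4 * z - 2) ≠ 0) {m1 m2 : O} {l1 l2 : ℕ}
    (hm1 : m1 ≠ 0) (hm2 : m2 ≠ 0)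
    (d1 : Dat S (cub (-3) (4 * z - 2)) (-3) (4 * z' - 2) m1 l1)
    (d2 : Dat S (cub (-3) (4 * z - 2)) (-3) (4 * z' - 2) m2 l2)
    (r s t0 : ℤ) (hform : (p : ℤ) = r ^ 2 * l1 + r * s * t0 + s ^ 2 * l2)
    (hl1 : ¬ (p : ℤ) ∣ l1) (hl2 : ¬ (p : ℤ) ∣ l2) (ht0 : t0 ^ 2 ≤ 4 * l1 * l2)
    (hbig : 16 * (l1 * l2) < p ^ 2) {al τ : O} {c E : ℤ} (hal : (r : O) * m1 + (s : O) * m2 = al)
    (hred : S.red al = 0) (hc : c ^ 2 = 1) (hprod : al * (τ - al) = c * p)
    (hE : (E : O) = τ ^ 2 - 2 * c * p)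
    {wi : R p} (hwi : (M : R p) * wi = 1) :
    ∑ k ∈ range p, (k.centralBinom : R p) * ((u6 k : ℕ) : R p) * wi ^ k = (E : R p) := by
  have hp0 : (p : O) ≠ 0 := by rw [← hq]; exact S.q_ne
  obtain ⟨w, hw⟩ := (S.red_iff _).mp hred
  rw [hq] at hw
  have hw1 : w * (τ - al) = c := by
    apply mul_left_cancel₀ hp0
    rw [hw] at hprod ⊢
    linear_combination hprod
  have hcO : (c : O) ^ 2 = 1 := by
    rw [← Int.cast_pow, hc, Int.cast_one]
  have hwr : S.red w ≠ 0 := by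
    intro h0
    have h1 := congrArg S.red hw1
    rw [map_mul, h0, zero_mul] at h1
    have h2 := congrArg S.red hcO
    rw [map_pow, ← h1, map_one] at h2
    simp at h2
  obtain ⟨ε, hε, hk⟩ := lift6 S hp5 hq hz hz1 hz' hb0 hm1 hm2 d1 d2 r s t0 hform
    (form_ndvd hform hl2) (form_ndvd (r := s) (s := r) (t0 := t0) (l1 := l2) (l2 := l1)
      (by rw [hform]; ring) hl1) ht0 hbig (w := w) (by rw [hal, hw]) hwr
  refine sum_final6 S hp5 hq hM hMz hwi E ?_ ⟨ε, by rcases hε with h | h <;> rw [h] <;> ring, hk⟩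
  refine ⟨w ^ 4, ?_⟩
  rw [hE]
  have h3 : w * τ = c + p * w ^ 2 := by rw [hw] at hw1; linear_combination hw1
  linear_combination (w * τ + c + p * w ^ 2) * h3 + hcO

/-- vanishing from an endomorphism whose multiplier is not fixed by the Frobenius -/
theorem qss6 (hp5 : 5 ≤ p) (hq : S.q = (p : O)) {z m : O} {l : ℕ} {M : ℤ}
    (hMz : (M : O) * (z * (1 - z)) = 432) (hm : S.red m ≠ 0) (hne : S.red m ^ p ≠ S.red m)
    (d : Dat S (cub (-3) (4 * z - 2)) (-3) (4 * z - 2) m l) {wi : R p} (hwi : (M : R p) * wi = 1) :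
    ∑ k ∈ range p, (k.centralBinom : R p) * ((u6 k : ℕ) : R p) * wi ^ k = 0 := by
  refine sum_zero6 S hp5 hq hMz hwi ?_
  rw [lg_cast]
  have h := ssq6 S hp5 hm d
  have h1 : (S.red m ^ p - S.red m) * lg (p / 6) (S.red z) = 0 := by linear_combination -h
  rcases mul_eq_zero.mp h1 with h2 | h2
  · exact absurd (sub_eq_zero.mp h2) hne
  · exact h2

theorem z_units6 (hp5 : 5 ≤ p) {z : O} {M : ℤ} (hMz : (M : O) * (z * (1 - z)) = 432) :
    S.red z ≠ 0 ∧ S.red (1 - z) ≠ 0 := by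
  have h432 : ¬ (p : ℤ) ∣ 432 :=
    ndvd_fac [(2, 4), (3, 3)] (by simp; exact ⟨⟨by norm_num, by omega⟩, ⟨by norm_num, by omega⟩⟩) (by norm_num)
  constructor
  · refine S.ne_mul (y := (M : O) * (1 - z)) (n := 432) ?_ h432
    push_cast; linear_combination hMz
  · refine S.ne_mul (y := (M : O) * z) (n := 432) ?_ h432
    push_cast; linear_combination hMz

end forms

/-- transfer to the rational numbers -/
theorem tr6 {p : ℕ} [hp : Fact p.Prime] {M : ℤ} (hM : ¬ (p : ℤ) ∣ M) {wi : R p} (hwi : (M : R p) * wi = 1)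
    (E : ℤ) (h : ∑ k ∈ range p, (k.centralBinom : R p) * ((u6 k : ℕ) : R p) * wi ^ k = (E : R p)) :
    p.Coprime (((∑ k ∈ range p, (((6 * k).factorial : ℚ) / (((3 * k).factorial : ℚ) * (k.factorial : ℚ) ^ 3)) / (M : ℚ) ^ k) -
      (E : ℚ)) / (p : ℚ) ^ 2).den := by
  have h := den_of_R (p := p) (fun k => ((k.centralBinom * u6 k : ℕ) : ℤ))
    M hM wi hwi E (by rw [← h]; refine sum_congr rfl fun k _ => ?_; push_cast; rfl)
  rw [Nat.Prime.coprime_iff_not_dvd hp.out]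
  have e : ∑ k ∈ range p, (((6 * k).factorial : ℚ) / (((3 * k).factorial : ℚ) * (k.factorial : ℚ) ^ 3)) / (M : ℚ) ^ k =
      ∑ k ∈ range p, (((k.centralBinom * u6 k : ℕ) : ℤ) : ℚ) / (M : ℚ) ^ k := by
    refine sum_congr rfl fun k _ => ?_
    congr 1
    have hk : (k.factorial : ℚ) ≠ 0 := by exact_mod_cast k.factorial_ne_zero
    have h2k : ((2 * k).factorial : ℚ) ≠ 0 := by exact_mod_cast (2 * k).factorial_ne_zero
    have h3k : ((3 * k).factorial : ℚ) ≠ 0 := by exact_mod_cast (3 * k).factorial_ne_zero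
    have h1 : k.centralBinom * k.factorial * k.factorial = (2 * k).factorial := by
      have := Nat.choose_mul_factorial_mul_factorial (show k ≤ 2 * k by omega)
      rw [show 2 * k - k = k by omega] at this
      exact this
    have h2 := u6_fac k
    have h1' : (k.centralBinom : ℚ) * k.factorial * k.factorial = (2 * k).factorial := by exact_mod_cast h1
    have h2' : (u6 k : ℚ) * (k.factorial * (2 * k).factorial * (3 * k).factorial) = (6 * k).factorial := by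
      exact_mod_cast h2
    rw [div_eq_iff (mul_ne_zero h3k (pow_ne_zero 3 hk)), ← h2', ← h1']
    push_cast
    ring
  rw [e]
  exact h

end Pool.Agent.H546.L1
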