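import Pool.Agent.H546.L1.Ser

set_option autoImplicit false

/-!
# The coefficients of the powers of the local parameter
-/

namespace Pool.Agent.H546.L1

open PowerSeries Finset

theorem charP_ps {k : Type*} [Field k] {p : ℕ} [CharP k p] : CharP k⟦X⟧ p := by
  refine ⟨fun n => ?_⟩
  rw [← CharP.cast_eq_zero_iff k p n, ← map_natCast (C : k →+* k⟦X⟧)]
  constructor
  · intro h
    have := congrArg constantCoeff h
    simpa using this
  · intro h; rw [h, map_zero]

section char

variable {k : Type*} [Field k] {p : ℕ} [hp : Fact p.Prime] [CharP k p]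

theorem two_ne_k (hp2 : p ≠ 2) : (2 : k) ≠ 0 := by
  intro h2
  have : ((2 : ℕ) : k) = 0 := by exact_mod_cast h2
  rw [CharP.cast_eq_zero_iff k p] at this
  exact hp2 ((Nat.prime_dvd_prime_iff_eq hp.out (by norm_num)).mp this)

/-- the `p`-th power of the square root series -/
theorem hsp (hp2 : p ≠ 2) {g : k⟦X⟧} (h : g ^ 2 * (1 + X ^ 4) = 1) (h0 : constantCoeff g = 1) :
    ∃ r r' : k⟦X⟧, g ^ p = 1 + X ^ (4 * p) * r ∧ 2 * r + 1 = X ^ (4 * p) * r' := by
  have hch : CharP k⟦X⟧ p := charP_ps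
  have h1 := congrArg (fun x => x ^ p) h
  simp only [mul_pow, one_pow, add_pow_char] at h1
  have e1 : (g ^ 2) ^ p = (g ^ p) ^ 2 := by rw [← pow_mul, ← pow_mul, mul_comm]
  have e2 : ((X : k⟦X⟧) ^ 4) ^ p = X ^ (4 * p) := by rw [← pow_mul]
  rw [e1, e2] at h1
  set G := g ^ p with hG
  have hG0 : constantCoeff G = 1 := by rw [hG, map_pow, h0, one_pow]
  have hu : IsUnit (G + 1) := by
    rw [PowerSeries.isUnit_iff_constantCoeff, map_add, hG0, map_one]
    have : (1 + 1 : k) = 2 := by norm_num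
    rw [this]
    exact isUnit_iff_ne_zero.mpr (two_ne_k hp2)
  obtain ⟨i, hi⟩ := hu.exists_left_inv
  refine ⟨-(G ^ 2 * i), -(i * (1 + 2 * G)) * (-(G ^ 2 * i)), ?_, ?_⟩
  · linear_combination i * h1 - (G - 1) * hi
  · have e3 : G = 1 + X ^ (4 * p) * -(G ^ 2 * i) := by
      linear_combination i * h1 - (G - 1) * hi
    linear_combination (-(1 : k⟦X⟧)) * hi - (i * (1 + 2 * G)) * e3

theorem coeff_bin (j n : ℕ) (h : 4 * j < n) : coeff n ((1 + X ^ 4 : k⟦X⟧) ^ j) = 0 := by
  have e : ((1 + X ^ 4 : k⟦X⟧) ^ j) = (((1 + Polynomial.X ^ 4) ^ j : Polynomial k) : k⟦X⟧) := by simp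
  rw [e, Polynomial.coeff_coe]
  apply Polynomial.coeff_eq_zero_of_natDegree_lt
  refine lt_of_le_of_lt Polynomial.natDegree_pow_le ?_
  have : (1 + Polynomial.X ^ 4 : Polynomial k).natDegree ≤ 4 := by compute_degree
  calc j * (1 + Polynomial.X ^ 4 : Polynomial k).natDegree ≤ j * 4 := Nat.mul_le_mul le_rfl this
    _ < n := by omega

/-- the relation between two coefficients of the odd powers -/
theorem rel6 (hp2 : p ≠ 2) {g : k⟦X⟧} (h : g ^ 2 * (1 + X ^ 4) = 1) (h0 : constantCoeff g = 1) (i : ℕ)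
    (hi : 2 * i + 1 ≤ 3 * p) :
    2 * coeff (5 * p) ((X * g) ^ (2 * i + 1)) + coeff p ((X * g) ^ (2 * i + 1)) = 0 := by
  obtain ⟨r, r', hr, hr'⟩ := hsp (p := p) hp2 h h0
  obtain ⟨e, he⟩ := hp.out.odd_of_ne_two hp2
  set m := 2 * i + 1 with hm
  have hC2 : (2 : k⟦X⟧) = C 2 := (map_ofNat C 2).symm
  rw [mul_pow]
  rcases le_or_gt m p with hmp | hmp
  · obtain ⟨j, hj⟩ : ∃ j, p = m + 2 * j := ⟨(p - m) / 2, by omega⟩
    have hg : g ^ m = g ^ p * (1 + X ^ 4) ^ j := by
      have h1 := congrArg (fun x => x ^ j) h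
      simp only [mul_pow, one_pow, ← pow_mul] at h1
      have h2 : g ^ p = g ^ m * g ^ (2 * j) := by rw [← pow_add, ← hj]
      rw [h2]
      linear_combination (-g ^ m) * h1
    set Q := (1 + X ^ 4 : k⟦X⟧) ^ j with hQ
    have e5 : coeff (5 * p) (X ^ m * g ^ m) = coeff (p - m) (r * Q) := by
      have : X ^ m * g ^ m = X ^ m * Q + X ^ (m + 4 * p) * (r * Q) := by
        rw [hg, hr, pow_add]; ring
      rw [this, map_add, show 5 * p = (5 * p - m) + m by omega, coeff_X_pow_mul,
        show 5 * p - m + m = (p - m) + (m + 4 * p) by omega, coeff_X_pow_mul, hQ, coeff_bin _ _ (by omega), zero_add]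
    have e1 : coeff p (X ^ m * g ^ m) = coeff (p - m) Q := by
      have : X ^ m * g ^ m = X ^ m * Q + X ^ (m + 4 * p) * (r * Q) := by
        rw [hg, hr, pow_add]; ring
      rw [this, map_add, coeff_X_dvd (show p < m + 4 * p by omega), add_zero]
      conv_lhs => rw [show p = (p - m) + m by omega]
      rw [coeff_X_pow_mul]
    rw [e5, e1]
    have e3 : 2 * coeff (p - m) (r * Q) = - coeff (p - m) Q := by
      have h3 : C 2 * (r * Q) = X ^ (4 * p) * (r' * Q) - Q := by
        rw [← hC2]; linear_combination Q * hr'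
      rw [← coeff_C_mul, h3, map_sub, coeff_X_dvd (by omega), zero_sub]
    rw [e3]; ring
  · obtain ⟨j, hj⟩ : ∃ j, 3 * p = m + 2 * j := ⟨(3 * p - m) / 2, by omega⟩
    have hg : g ^ m = g ^ (3 * p) * (1 + X ^ 4) ^ j := by
      have h1 := congrArg (fun x => x ^ j) h
      simp only [mul_pow, one_pow, ← pow_mul] at h1
      have h2 : g ^ (3 * p) = g ^ m * g ^ (2 * j) := by rw [← pow_add, ← hj]
      rw [h2]
      linear_combination (-g ^ m) * h1
    have hg3 : g ^ (3 * p) = 1 + X ^ (4 * p) * (r * (3 + 3 * (X ^ (4 * p) * r) + (X ^ (4 * p) * r) ^ 2)) := by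
      rw [mul_comm 3 p, pow_mul, hr]; ring
    set Q := (1 + X ^ 4 : k⟦X⟧) ^ j with hQ
    rw [coeff_X_dvd hmp, add_zero]
    have : X ^ m * g ^ m = X ^ m * Q + X ^ (m + 4 * p) *
        ((r * (3 + 3 * (X ^ (4 * p) * r) + (X ^ (4 * p) * r) ^ 2)) * Q) := by
      rw [hg, hg3, pow_add]; ring
    rw [this, map_add, coeff_X_dvd (show 5 * p < m + 4 * p by omega), add_zero]
    have e6 : coeff (5 * p) (X ^ m * Q) = coeff (5 * p - m) Q := by
      conv_lhs => rw [show 5 * p = (5 * p - m) + m by omega]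
      rw [coeff_X_pow_mul]
    rw [e6, hQ, coeff_bin _ _ (by omega), mul_zero]

end char

section lift

variable {O K k : Type*} [CommRing O] [IsDomain O] [Field K] [Algebra O K] [Field k]
  (S : DV O K k)

/-- the coefficient of `X^{5p}` in the `p`-th power of the local parameter -/
theorem coeff5 {p : ℕ} [hp : Fact p.Prime] [CharP k p] (hp2 : p ≠ 2) (hq : S.q = (p : O)) {g : O⟦X⟧}
    (h : g ^ 2 * (1 + X ^ 4) = 1) (h0 : constantCoeff g = 1) :
    S.q ^ 2 ∣ 2 * coeff (5 * p) ((X * g) ^ p) + 1 := by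
  have hp0 := hp.out.pos
  have hq0 : S.q ≠ 0 := S.q_ne
  -- the reduction
  have hr1 : (PowerSeries.map S.red g) ^ 2 * (1 + X ^ 4) = 1 := by
    have := congrArg (PowerSeries.map S.red) h
    simpa using this
  have hr0 : constantCoeff (PowerSeries.map S.red g) = 1 := by
    rw [← coeff_zero_eq_constantCoeff_apply, PowerSeries.coeff_map, coeff_zero_eq_constantCoeff_apply, h0, map_one]
  obtain ⟨r, r', hr, -⟩ := hsp (p := p) hp2 hr1 hr0
  set H := g ^ p with hH
  have hHr : PowerSeries.map S.red H = 1 + X ^ (4 * p) * r := by rw [hH, map_pow, hr]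
  have hex : ∀ n, ∃ a, n < 4 * p → coeff n H = coeff n (1 : O⟦X⟧) + S.q * a := by
    intro n
    by_cases hn : n < 4 * p
    · have h1 : S.red (coeff n H - coeff n (1 : O⟦X⟧)) = 0 := by
        have := congrArg (coeff n) hHr
        rw [PowerSeries.coeff_map, map_add, coeff_X_dvd hn, add_zero] at this
        rw [map_sub, this, coeff_one, coeff_one]
        split_ifs <;> simp
      obtain ⟨c, hc⟩ := (S.red_iff _).mp h1
      exact ⟨c, fun _ => by linear_combination hc⟩
    · exact ⟨0, fun h => absurd h hn⟩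
  choose a ha using hex
  set A : O⟦X⟧ := PowerSeries.mk fun n => if n < 4 * p then a n else 0 with hA
  set R : O⟦X⟧ := PowerSeries.mk fun n => coeff (n + 4 * p) H with hR
  have hHe : H = 1 + C S.q * A + X ^ (4 * p) * R := by
    ext n
    rw [map_add, map_add, coeff_C_mul, coeff_X_pow_mul', hA, coeff_mk]
    by_cases hn : n < 4 * p
    · rw [if_pos hn, if_neg (by omega), ha n hn, add_zero]
    · rw [if_neg hn, if_pos (by omega), coeff_mk, show n - 4 * p + 4 * p = n by omega, mul_zero, add_zero, coeff_one,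
        if_neg (by omega), zero_add]
  have hA0 : constantCoeff A = 0 := by
    have h1 := congrArg constantCoeff hHe
    simp only [map_add, map_mul, map_pow, map_one, constantCoeff_C, constantCoeff_X, zero_pow (show 4 * p ≠ 0 by omega),
      zero_mul, add_zero, hH, h0, one_pow] at h1
    have h2 : S.q * constantCoeff A = 0 := by linear_combination -h1
    exact (mul_eq_zero.mp h2).resolve_left hq0
  have hA4 : coeff (4 * p) A = 0 := by rw [hA, coeff_mk, if_neg (by omega)]
  have hR0 : constantCoeff R = coeff (4 * p) H := by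
    rw [← coeff_zero_eq_constantCoeff_apply, hR, coeff_mk, zero_add]
  -- the binomial
  obtain ⟨b, hb⟩ := exists_add_pow_prime_eq hp.out (1 : Polynomial O) (Polynomial.X ^ 4)
  have hbc : ∀ n, coeff n (((1 + Polynomial.X ^ 4 : Polynomial O) ^ p : Polynomial O) : O⟦X⟧) =
      coeff n ((1 + X ^ 4 : O⟦X⟧) ^ p) := by intro n; simp
  set al : Polynomial O →+* O⟦X⟧ := Polynomial.coeToPowerSeries.ringHom with hal
  have alX : al Polynomial.X = X := by simp [hal]
  set B : O⟦X⟧ := X ^ 4 * al b with hB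
  have hCq : (C S.q : O⟦X⟧) = (p : O⟦X⟧) := by rw [hq, map_natCast]
  have hbin : (1 + X ^ 4 : O⟦X⟧) ^ p = 1 + X ^ (4 * p) + C S.q * B := by
    have h1 := congrArg al hb
    rw [hCq, hB]
    simp only [map_add, map_mul, map_pow, map_one, map_natCast, alX, one_pow, ← pow_mul] at h1
    rw [h1]
    ring
  have hB0 : constantCoeff B = 0 := by
    rw [hB]; simp
  have hB4 : coeff (4 * p) B = 0 := by
    have h1 := congrArg (coeff (4 * p)) hbin
    rw [← hbc, Polynomial.coeff_coe, map_add, map_add, coeff_C_mul, coeff_one, if_neg (by omega), coeff_X_pow,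
      if_pos rfl, zero_add] at h1
    have h2 : ((1 + Polynomial.X ^ 4 : Polynomial O) ^ p).coeff (4 * p) = 1 := by
      have h3 : (1 + Polynomial.X ^ 4 : Polynomial O) ^ p = Polynomial.expand O 4 ((Polynomial.X + 1) ^ p) := by
        rw [map_pow, map_add, Polynomial.expand_X, map_one, add_comm]
      rw [h3, mul_comm 4 p, Polynomial.coeff_expand_mul (by norm_num), Polynomial.coeff_X_add_one_pow,
        Nat.choose_self, Nat.cast_one]
    rw [h2] at h1
    have h4 : S.q * coeff (4 * p) B = 0 := by linear_combination -h1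
    exact (mul_eq_zero.mp h4).resolve_left hq0
  have hone : H ^ 2 * (1 + X ^ (4 * p) + C S.q * B) = 1 := by
    rw [← hbin, hH]
    have := congrArg (fun x => x ^ p) h
    simp only [one_pow, mul_pow] at this
    linear_combination this
  set y : O⟦X⟧ := X ^ (4 * p) with hy
  have hid : C 2 * (y * R) + y + (C S.q * (A * C 2 + B)) + C (S.q ^ 2) * (A ^ 2 * (1 + y + C S.q * B) + 2 * A * B) +
      y * (C S.q * (A * (2 * R * (1 + y + C S.q * B) + 2) + B * (2 * R))) +
      y * (y * (R ^ 2 * (1 + y + C S.q * B) + 2 * R)) = 0 := by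
    have hC2 : (C 2 : O⟦X⟧) = 2 := map_ofNat C 2
    rw [hHe] at hone
    rw [hC2, map_pow]
    linear_combination hone
  have hfin := congrArg (coeff (4 * p)) hid
  rw [map_add, map_add, map_add, map_add, map_add, coeff_C_mul, coeff_C_mul, coeff_C_mul, hy, coeff_low, coeff_low,
    coeff_low, coeff_X_pow, if_pos rfl, map_add, hB4, map_zero, mul_comm A (C 2), coeff_C_mul, hA4] at hfin
  simp only [map_mul, map_add, hA0, hB0, map_pow, constantCoeff_X, zero_mul, mul_zero, add_zero,
    zero_pow (show 4 * p ≠ 0 by omega)] at hfin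
  have e5 : coeff (5 * p) ((X * g) ^ p) = constantCoeff R := by
    rw [hR0, mul_pow, ← hH, show 5 * p = 4 * p + p by ring, coeff_X_pow_mul]
  rw [e5]
  exact ⟨-((coeff (4 * p)) (A ^ 2 * (1 + X ^ (4 * p) + C S.q * B)) + (coeff (4 * p)) (2 * A * B)),
    by linear_combination hfin⟩

end lift

end Pool.Agent.H546.L1
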