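import Pool.Agent.H546.L1.T19
import Pool.Agent.H888.L1I.I163

set_option autoImplicit false

/-!
# The sum with `(-640320)³`
-/

namespace Pool.Agent.H546.L1

open Finset
open Pool.Agent.Q267.CDE (R)

local instance fact163 : Fact (Nat.Prime 163) := ⟨by norm_num⟩

theorem leg163_127 : legendreSym 163 ((127 : ℕ) : ℤ) = -1 := by decide +kernel

theorem t163_main (p : ℕ) [hp : Fact p.Prime] (h5 : 5 < p) (h23 : p ≠ 23) (h29 : p ≠ 29) (h41 : p ≠ 41)
    (h163 : p ≠ 163) {wi : R p}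
    (hwi : ((-262537412640768000 : ℤ) : R p) * wi = 1) :
    (∀ x y : ℤ, 41 < p → legendreSym 163 p = 1 → 4 * (p : ℤ) = x ^ 2 + 163 * y ^ 2 →
      ∑ k ∈ range p, (k.centralBinom : R p) * ((u6 k : ℕ) : R p) * wi ^ k =
        ((legendreSym p (-10005) * (x ^ 2 - 2 * p) : ℤ) : R p)) ∧
    (legendreSym 163 p = -1 → ∑ k ∈ range p, (k.centralBinom : R p) * ((u6 k : ℕ) : R p) * wi ^ k = 0) := by
  have hp2 : p ≠ 2 := by omega
  have hp3 : p ≠ 3 := by omega
  have hp5 : p ≠ 5 := by omega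
  have nd : ∀ {n : ℤ} (l : List (ℕ × ℕ)), (∀ q ∈ l, q.1.Prime ∧ p ≠ q.1) →
      n.natAbs = (l.map fun q => q.1 ^ q.2).prod → ¬ (p : ℤ) ∣ n := fun l hl hn => ndvd_fac l hl hn
  have nδ : ¬ (p : ℤ) ∣ 1630815 :=
    nd [(3, 1), (5, 1), (23, 1), (29, 1), (163, 1)] (by
      simp
      exact ⟨⟨by norm_num, hp3⟩, ⟨by norm_num, hp5⟩, ⟨by norm_num, h23⟩, ⟨by norm_num, h29⟩, ⟨by norm_num, h163⟩⟩)
      (by norm_num)
  have nm163 : ¬ (p : ℤ) ∣ -163 := nd [(163, 1)] (by simp; exact ⟨by norm_num, h163⟩) (by norm_num)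
  have nm1 : ¬ (p : ℤ) ∣ -1 := by
    rw [dvd_neg]
    intro h
    have := Int.le_of_dvd (by norm_num) h
    omega
  have nN : ¬ (p : ℤ) ∣ 711822400 :=
    nd [(2, 6), (5, 2), (23, 2), (29, 2)] (by
      simp
      exact ⟨⟨by norm_num, hp2⟩, ⟨by norm_num, hp5⟩, ⟨by norm_num, h23⟩, ⟨by norm_num, h29⟩⟩) (by norm_num)
  have n2N : ¬ (p : ℤ) ∣ 1423644800 :=
    nd [(2, 7), (5, 2), (23, 2), (29, 2)] (by
      simp
      exact ⟨⟨by norm_num, hp2⟩, ⟨by norm_num, hp5⟩, ⟨by norm_num, h23⟩, ⟨by norm_num, h29⟩⟩) (by norm_num)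
  have hM : ¬ (p : ℤ) ∣ -262537412640768000 :=
    nd [(2, 18), (3, 3), (5, 3), (23, 3), (29, 3)] (by
      simp
      exact ⟨⟨by norm_num, hp2⟩, ⟨by norm_num, hp3⟩, ⟨by norm_num, hp5⟩, ⟨by norm_num, h23⟩, ⟨by norm_num, h29⟩⟩)
      (by norm_num)
  have r2 : (SW p).red 2 ≠ 0 := (SW p).two_ne (p := p) hp2
  have r2N : (SW p).red (1423644800 : WO p) ≠ 0 := by
    have := (SW p).int_ne (p := p) n2N
    exact_mod_cast this
  obtain ⟨v, hv⟩ := ((SW p).unit_of_red r2).exists_right_inv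
  obtain ⟨u, hu⟩ := ((SW p).unit_of_red r2N).exists_right_inv
  obtain ⟨s, hs⟩ := wo_isqrt p hp2 nδ
  obtain ⟨r, hr⟩ := wo_isqrt p hp2 nm163
  obtain ⟨i, hi⟩ := wo_isqrt p hp2 nm1
  obtain ⟨z, hz⟩ : ∃ z, z = u * (711822400 - 557403 * s) := ⟨_, rfl⟩
  obtain ⟨τ, hτ⟩ : ∃ τ, τ = v * (1 + r) := ⟨_, rfl⟩
  have hzN : 1423644800 * z = 711822400 - 557403 * s := by rw [hz]; linear_combination (711822400 - 557403 * s) * hu
  have h2τ : 2 * τ = 1 + r := by rw [hτ]; linear_combination (1 + r) * hv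
  have hs' : s ^ 2 = 1630815 := by rw [hs]; norm_num
  have hr' : r ^ 2 = -163 := by rw [hr]; norm_num
  have hi' : i ^ 2 = -1 := by rw [hi]; norm_num
  have h2O : (2 : WO p) ≠ 0 := by intro h0; rw [h0, map_zero] at r2; exact r2 rfl
  have h2NO : (1423644800 : WO p) ≠ 0 := by intro h0; rw [h0, map_zero] at r2N; exact r2N rfl
  have hzz : 711822400 * (1 - 2 * z) = 557403 * s := by linear_combination -hzN
  have hMz : ((-262537412640768000 : ℤ) : WO p) * (z * (1 - z)) = 432 := by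
    apply mul_left_cancel₀ h2NO
    apply mul_left_cancel₀ h2NO
    push_cast
    linear_combination (-262537412640768000 * (1423644800 * (1 - z))) * hzN +
      262537412640768000 * (711822400 - 557403 * s) * hzN +
      (262537412640768000 * 557403 ^ 2) * hs'
  have hττ : τ ^ 2 = τ - (41 : ℕ) := by
    have h4 : (2 * 2 : WO p) ≠ 0 := mul_ne_zero h2O h2O
    apply mul_left_cancel₀ h4
    push_cast
    linear_combination (2 * τ + 1 + r - 2) * h2τ + hr'
  have d := Pool.Agent.H888.L1I.I163.psi (SW p) hp2 hp3 hp5 h23 h29 h41 h163 hs' hr' hzz h2τ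
  have hl : ¬ (p : ℤ) ∣ ((41 : ℕ) : ℤ) := nd [(41, 1)] (by simp; exact ⟨by norm_num, h41⟩) (by norm_num)
  have hleg : legendreSym p (-163) = legendreSym 163 p := by
    have := legm (p := p) (q := 163) (by norm_num) hp2
    exact_mod_cast this
  refine ⟨?_, ?_⟩
  · intro x y h42 h1 hxy
    have h127 : p ≠ 127 := by
      rintro rfl
      rw [leg163_127] at h1
      norm_num at h1
    have nc0 : ¬ (p : ℤ) ∣ 557403 :=
      nd [(3, 1), (7, 1), (11, 1), (19, 1), (127, 1)] (by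
        simp
        exact ⟨⟨by norm_num, hp3⟩, ⟨by norm_num, by omega⟩, ⟨by norm_num, by omega⟩, ⟨by norm_num, by omega⟩,
          ⟨by norm_num, h127⟩⟩) (by norm_num)
    have hc := cm_ord (SW p) (by omega) (SW_q p) (z := z) (τ := τ) (s := s) (i := i) (M := -262537412640768000)
      (N := 711822400) (c0 := 557403) (δ := 1630815) hM hMz nN (by push_cast; exact hzz) (by rw [hs]) nδ nc0 hττ d hl
      (by norm_num) (by nlinarith) hi' x y (by rw [hxy]; push_cast; ring) hwi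
    rw [hc]
    have e : (1630815 : ℤ) = -10005 * -163 := by norm_num
    rw [e, legendreSym.mul, hleg, h1, mul_one]
  · intro h2
    exact cm_ss (SW p) (by omega) (SW_q p) (z := z) (τ := τ) (r := r) (M := -262537412640768000) (D := -163) hMz
      (by push_cast; exact hr') h2τ (by rw [hleg, h2]) hττ d hl hwi

theorem cu_fac (k : ℕ) : k.centralBinom * u6 k = (6 * k).factorial / ((3 * k).factorial * k.factorial ^ 3) := by
  apply Nat.eq_div_of_mul_eq_left
  · have := (3 * k).factorial_pos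
    have := k.factorial_pos
    positivity
  · have h2 := u6_fac k
    have h1 : k.centralBinom * k.factorial * k.factorial = (2 * k).factorial := by
      have := Nat.choose_mul_factorial_mul_factorial (show k ≤ 2 * k by omega)
      rw [show 2 * k - k = k by omega] at this
      exact this
    rw [← h2, ← h1]
    ring

theorem sum41 : (∑ k ∈ range 41, (6 * k).factorial / ((3 * k).factorial * k.factorial ^ 3) * 898 ^ k) % 1681 =
    1600 := by decide +kernel

theorem t163_41 (wi : ZMod (41 ^ 2)) (hwi : ((-262537412640768000 : ℤ) : ZMod (41 ^ 2)) * wi = 1) :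
    ∑ k ∈ range 41, (k.centralBinom : ZMod (41 ^ 2)) * ((u6 k : ℕ) : ZMod (41 ^ 2)) * wi ^ k =
      ((-81 : ℤ) : ZMod (41 ^ 2)) := by
  have h : wi = 898 := by
    have e : (-262537412640768000 * 898 : ZMod (41 ^ 2)) = 1 := by decide +kernel
    push_cast at hwi
    linear_combination 898 * hwi - wi * e
  subst h
  have h0 : ∀ k ∈ range 41, ((k.centralBinom : ZMod (41 ^ 2)) * ((u6 k : ℕ) : ZMod (41 ^ 2)) * 898 ^ k) =
    (((6 * k).factorial / ((3 * k).factorial * k.factorial ^ 3) * 898 ^ k : ℕ) : ZMod (41 ^ 2)) := by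
      intro k _; rw [← cu_fac]; push_cast; rfl
  rw [sum_congr rfl h0, ← Nat.cast_sum]
  have h2 := (ZMod.natCast_eq_natCast_iff'
    (∑ k ∈ range 41, (6 * k).factorial / ((3 * k).factorial * k.factorial ^ 3) * 898 ^ k) 1600 (41 ^ 2)).mpr (by
    have := sum41
    norm_num only at this ⊢)
  rw [h2]
  decide +kernel

end Pool.Agent.H546.L1
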