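import Pool.Agent.H546.L1.CM
import Pool.Agent.H888.L1I.I19

set_option autoImplicit false

/-!
# The sum with `(-96)³`
-/

namespace Pool.Agent.H546.L1

open Finset
open Pool.Agent.Q267.CDE (R)

/-- reciprocity for `-q`, `q` a prime `3 mod 4` -/
theorem legm {p : ℕ} [hp : Fact p.Prime] {q : ℕ} [hq : Fact q.Prime] (hq4 : q % 4 = 3) (hp2 : p ≠ 2) :
    legendreSym p (-(q : ℤ)) = legendreSym q p := by
  have hm : legendreSym p (-(q : ℤ)) = legendreSym p (-1) * legendreSym p q := by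
    rw [← legendreSym.mul]; norm_num
  rw [hm, legendreSym.at_neg_one hp2]
  have hodd : p % 2 = 1 := by
    rcases hp.out.eq_two_or_odd with h | h
    · exact absurd h hp2
    · exact h
  have : p % 4 = 1 ∨ p % 4 = 3 := by omega
  rcases this with h | h
  · rw [ZMod.χ₄_nat_one_mod_four h, one_mul]
    exact (legendreSym.quadratic_reciprocity_one_mod_four h (by rintro rfl; norm_num at hq4)).symm
  · rw [ZMod.χ₄_nat_three_mod_four h,
      legendreSym.quadratic_reciprocity_three_mod_four (p := p) (q := q) h hq4]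
    ring

local instance fact19 : Fact (Nat.Prime 19) := ⟨by norm_num⟩

theorem t19_main (p : ℕ) [hp : Fact p.Prime] (h5 : 7 < p) (h19 : p ≠ 19) {wi : R p}
    (hwi : ((-884736 : ℤ) : R p) * wi = 1) :
    (∀ x y : ℤ, legendreSym 19 p = 1 → 4 * (p : ℤ) = x ^ 2 + 19 * y ^ 2 →
      ∑ k ∈ range p, (k.centralBinom : R p) * ((u6 k : ℕ) : R p) * wi ^ k =
        ((legendreSym p (-6) * (x ^ 2 - 2 * p) : ℤ) : R p)) ∧
    (legendreSym 19 p = -1 → ∑ k ∈ range p, (k.centralBinom : R p) * ((u6 k : ℕ) : R p) * wi ^ k = 0) := by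
  have hp2 : p ≠ 2 := by omega
  have hp3 : p ≠ 3 := by omega
  have hp5 : p ≠ 5 := by omega
  have hp7 : p ≠ 7 := by omega
  have h11 : 11 ≤ p := by
    have h8 : p ≠ 8 := by rintro rfl; exact absurd hp.out (by norm_num)
    have h9 : p ≠ 9 := by rintro rfl; exact absurd hp.out (by norm_num)
    have h10 : p ≠ 10 := by rintro rfl; exact absurd hp.out (by norm_num)
    omega
  have nd : ∀ {n : ℤ} (l : List (ℕ × ℕ)), (∀ q ∈ l, q.1.Prime ∧ p ≠ q.1) →
      n.natAbs = (l.map fun q => q.1 ^ q.2).prod → ¬ (p : ℤ) ∣ n := fun l hl hn => ndvd_fac l hl hn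
  have n114 : ¬ (p : ℤ) ∣ 114 :=
    nd [(2, 1), (3, 1), (19, 1)] (by simp; exact ⟨⟨by norm_num, hp2⟩, ⟨by norm_num, hp3⟩, ⟨by norm_num, h19⟩⟩)
      (by norm_num)
  have nm19 : ¬ (p : ℤ) ∣ -19 := nd [(19, 1)] (by simp; exact ⟨by norm_num, h19⟩) (by norm_num)
  have n3 : ¬ (p : ℤ) ∣ 3 := nd [(3, 1)] (by simp; exact ⟨by norm_num, hp3⟩) (by norm_num)
  have nm1 : ¬ (p : ℤ) ∣ -1 := by
    rw [dvd_neg]
    intro h
    have := Int.le_of_dvd (by norm_num) h
    omega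
  have n64 : ¬ (p : ℤ) ∣ 64 :=
    nd [(2, 6)] (by simp; exact ⟨by norm_num, hp2⟩) (by norm_num)
  have n32 : ¬ (p : ℤ) ∣ 32 :=
    nd [(2, 5)] (by simp; exact ⟨by norm_num, hp2⟩) (by norm_num)
  have hM : ¬ (p : ℤ) ∣ -884736 :=
    nd [(2, 15), (3, 3)] (by simp; exact ⟨⟨by norm_num, hp2⟩, ⟨by norm_num, hp3⟩⟩)
      (by norm_num)
  have r2 : (SW p).red 2 ≠ 0 := (SW p).two_ne (p := p) hp2
  have r64 : (SW p).red (64 : WO p) ≠ 0 := by
    have := (SW p).int_ne (p := p) n64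
    exact_mod_cast this
  obtain ⟨v, hv⟩ := ((SW p).unit_of_red r2).exists_right_inv
  obtain ⟨u, hu⟩ := ((SW p).unit_of_red r64).exists_right_inv
  obtain ⟨s, hs⟩ := wo_isqrt p hp2 n114
  obtain ⟨r, hr⟩ := wo_isqrt p hp2 nm19
  obtain ⟨i, hi⟩ := wo_isqrt p hp2 nm1
  obtain ⟨z, hz⟩ : ∃ z, z = u * (32 - 3 * s) := ⟨_, rfl⟩
  obtain ⟨τ, hτ⟩ : ∃ τ, τ = v * (1 + r) := ⟨_, rfl⟩
  have hz64 : 64 * z = 32 - 3 * s := by rw [hz]; linear_combination (32 - 3 * s) * hu
  have h2τ : 2 * τ = 1 + r := by rw [hτ]; linear_combination (1 + r) * hv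
  have hs' : s ^ 2 = 114 := by rw [hs]; norm_num
  have hr' : r ^ 2 = -19 := by rw [hr]; norm_num
  have hi' : i ^ 2 = -1 := by rw [hi]; norm_num
  have h2O : (2 : WO p) ≠ 0 := by intro h0; rw [h0, map_zero] at r2; exact r2 rfl
  have h64O : (64 : WO p) ≠ 0 := by intro h0; rw [h0, map_zero] at r64; exact r64 rfl
  have hz32 : 32 * (1 - 2 * z) = 3 * s := by linear_combination -hz64
  have hMz : ((-884736 : ℤ) : WO p) * (z * (1 - z)) = 432 := by
    apply mul_left_cancel₀ h64O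
    apply mul_left_cancel₀ h64O
    push_cast
    linear_combination (-884736 * (64 * (1 - z))) * hz64 + 884736 * (32 - 3 * s) * hz64 +
      884736 * 9 * hs'
  have hττ : τ ^ 2 = τ - (5 : ℕ) := by
    have h4 : (2 * 2 : WO p) ≠ 0 := mul_ne_zero h2O h2O
    apply mul_left_cancel₀ h4
    push_cast
    linear_combination (2 * τ + 1 + r - 2) * h2τ + hr'
  have d := Pool.Agent.H888.L1I.I19.psi (SW p) hp2 hp3 hp5 h19 hs' hr' hz32 h2τ
  have hl : ¬ (p : ℤ) ∣ ((5 : ℕ) : ℤ) := nd [(5, 1)] (by simp; exact ⟨by norm_num, hp5⟩) (by norm_num)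
  have hleg : legendreSym p (-19) = legendreSym 19 p := by
    have := legm (p := p) (q := 19) (by norm_num) hp2
    exact_mod_cast this
  refine ⟨?_, ?_⟩
  · intro x y h1 hxy
    have hc := cm_ord (SW p) (by omega) (SW_q p) (z := z) (τ := τ) (s := s) (i := i) (M := -884736) (N := 32) (c0 := 3)
      (δ := 114) hM hMz n32 (by push_cast; exact hz32) (by rw [hs]) n114 n3 hττ d hl (by norm_num) (by nlinarith) hi' x y
      (by rw [hxy]; push_cast; ring) hwi
    rw [hc]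
    have e : (114 : ℤ) = -6 * -19 := by norm_num
    rw [e, legendreSym.mul, hleg, h1, mul_one]
  · intro h2
    exact cm_ss (SW p) (by omega) (SW_q p) (z := z) (τ := τ) (r := r) (M := -884736) (D := -19) hMz
      (by push_cast; exact hr') h2τ (by rw [hleg, h2]) hττ d hl hwi

end Pool.Agent.H546.L1
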