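import Pool.Agent.H546.L1.CM
import Pool.Agent.H546.L1.D27

set_option autoImplicit false

/-!
# The sum with `-12288000`
-/

namespace Pool.Agent.H546.L1

open Finset
open Pool.Agent.Q267.CDE (R)

theorem t27_main (p : ℕ) [hp : Fact p.Prime] (h5 : 7 < p) {wi : R p}
    (hwi : ((-12288000 : ℤ) : R p) * wi = 1) :
    (∀ x y : ℤ, p % 3 = 1 → 4 * (p : ℤ) = x ^ 2 + 27 * y ^ 2 →
      ∑ k ∈ range p, (k.centralBinom : R p) * ((u6 k : ℕ) : R p) * wi ^ k =
        ((legendreSym p 10 * (x ^ 2 - 2 * p) : ℤ) : R p)) ∧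
    (p % 3 = 2 → ∑ k ∈ range p, (k.centralBinom : R p) * ((u6 k : ℕ) : R p) * wi ^ k = 0) := by
  have hp2 : p ≠ 2 := by omega
  have hp3 : p ≠ 3 := by omega
  have hp5 : p ≠ 5 := by omega
  have hp7 : p ≠ 7 := by omega
  have h11 : 11 ≤ p := by
    have h8 : p ≠ 8 := by rintro rfl; exact absurd hp.out (by norm_num)
    have h9 : p ≠ 9 := by rintro rfl; exact absurd hp.out (by norm_num)
    have h10 : p ≠ 10 := by rintro rfl; exact absurd hp.out (by norm_num)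
    omega
  have nd : ∀ {n : ℤ} (l : List (ℕ × ℕ)), (∀ q ∈ l, q.1.Prime ∧ p ≠ q.1) →
      n.natAbs = (l.map fun q => q.1 ^ q.2).prod → ¬ (p : ℤ) ∣ n := fun l hl hn => ndvd_fac l hl hn
  have n10 : ¬ (p : ℤ) ∣ 10 :=
    nd [(2, 1), (5, 1)] (by simp; exact ⟨⟨by norm_num, hp2⟩, ⟨by norm_num, hp5⟩⟩) (by norm_num)
  have nm3 : ¬ (p : ℤ) ∣ -3 := nd [(3, 1)] (by simp; exact ⟨by norm_num, hp3⟩) (by norm_num)
  have nm1 : ¬ (p : ℤ) ∣ -1 := by
    rw [dvd_neg]
    intro h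
    have := Int.le_of_dvd (by norm_num) h
    omega
  have n1600 : ¬ (p : ℤ) ∣ 1600 :=
    nd [(2, 6), (5, 2)] (by simp; exact ⟨⟨by norm_num, hp2⟩, ⟨by norm_num, hp5⟩⟩) (by norm_num)
  have hM : ¬ (p : ℤ) ∣ -12288000 :=
    nd [(2, 15), (3, 1), (5, 3)] (by simp; exact ⟨⟨by norm_num, hp2⟩, ⟨by norm_num, hp3⟩, ⟨by norm_num, hp5⟩⟩)
      (by norm_num)
  have r2 : (SW p).red 2 ≠ 0 := (SW p).two_ne (p := p) hp2
  have r1600 : (SW p).red (1600 : WO p) ≠ 0 := by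
    have := (SW p).int_ne (p := p) n1600
    exact_mod_cast this
  obtain ⟨v, hv⟩ := ((SW p).unit_of_red r2).exists_right_inv
  obtain ⟨u, hu⟩ := ((SW p).unit_of_red r1600).exists_right_inv
  obtain ⟨s, hs⟩ := wo_isqrt p hp2 n10
  obtain ⟨r, hr⟩ := wo_isqrt p hp2 nm3
  obtain ⟨i, hi⟩ := wo_isqrt p hp2 nm1
  obtain ⟨z, hz⟩ : ∃ z, z = u * (800 - 253 * s) := ⟨_, rfl⟩
  obtain ⟨τ, hτ⟩ : ∃ τ, τ = v * (1 + 3 * r) := ⟨_, rfl⟩
  have hz1600 : 1600 * z = 800 - 253 * s := by rw [hz]; linear_combination (800 - 253 * s) * hu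
  have h2τ : 2 * τ = 1 + 3 * r := by rw [hτ]; linear_combination (1 + 3 * r) * hv
  have hs' : s ^ 2 = 10 := by rw [hs]; norm_num
  have hr' : r ^ 2 = -3 := by rw [hr]; norm_num
  have hi' : i ^ 2 = -1 := by rw [hi]; norm_num
  have h2O : (2 : WO p) ≠ 0 := by intro h0; rw [h0, map_zero] at r2; exact r2 rfl
  have h1600O : (1600 : WO p) ≠ 0 := by intro h0; rw [h0, map_zero] at r1600; exact r1600 rfl
  have hMz : ((-12288000 : ℤ) : WO p) * (z * (1 - z)) = 432 := by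
    apply mul_left_cancel₀ h1600O
    apply mul_left_cancel₀ h1600O
    push_cast
    linear_combination (-12288000 * (1600 * (1 - z))) * hz1600 + 12288000 * (800 - 253 * s) * hz1600 +
      12288000 * 64009 * hs'
  have hττ : τ ^ 2 = τ - (7 : ℕ) := by
    have h4 : (2 * 2 : WO p) ≠ 0 := mul_ne_zero h2O h2O
    apply mul_left_cancel₀ h4
    push_cast
    linear_combination (2 * τ + 1 + 3 * r - 2) * h2τ + 9 * hr'
  have d := dat27 hp2 hp3 hp5 hp7 hs' hr' hz1600 h2τ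
  have hl : ¬ (p : ℤ) ∣ ((7 : ℕ) : ℤ) := nd [(7, 1)] (by simp; exact ⟨by norm_num, hp7⟩) (by norm_num)
  refine ⟨?_, ?_⟩
  · intro x y h1 hxy
    have n253 : ¬ (p : ℤ) ∣ 253 := by
      refine nd [(11, 1), (23, 1)] ?_ (by norm_num)
      simp
      exact ⟨⟨by norm_num, by omega⟩, ⟨by norm_num, by omega⟩⟩
    have n800 : ¬ (p : ℤ) ∣ 800 :=
      nd [(2, 5), (5, 2)] (by simp; exact ⟨⟨by norm_num, hp2⟩, ⟨by norm_num, hp5⟩⟩) (by norm_num)
    refine cm_ord (SW p) (by omega) (SW_q p) (z := z) (τ := τ) (s := s) (i := i) (M := -12288000) (N := 800) (c0 := 253)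
      (δ := 10) hM hMz n800 ?_ (by rw [hs]) n10 n253 hττ d hl (by norm_num) (by nlinarith) hi' x y ?_ hwi
    · push_cast
      linear_combination -hz1600
    · rw [hxy]; push_cast; ring
  · intro h2
    have hL : legendreSym p (-27) = -1 := by
      have e : (-27 : ℤ) = -3 * 3 ^ 2 := by norm_num
      rw [e, legendreSym.mul, legendreSym.sq_one' p (by
        intro h0
        have h3 : ((3 : ℤ) : ZMod p) = 0 := by exact_mod_cast h0
        rw [ZMod.intCast_zmod_eq_zero_iff_dvd] at h3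
        have := Int.le_of_dvd (by norm_num) h3
        omega), legm3 hp2 hp3, if_neg (by omega)]
      norm_num
    exact cm_ss (SW p) (by omega) (SW_q p) (z := z) (τ := τ) (r := 3 * r) (M := -12288000) (D := -27) hMz
      (by push_cast; linear_combination 9 * hr') h2τ hL hττ d hl hwi

end Pool.Agent.H546.L1
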